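import Pool.Agent.T6.H29.OR.W3

/-!
# Multiplicative Fourier coefficients of subsets of a finite field
-/

set_option autoImplicit false

namespace Pool.Agent.T6.H29.OR

open Finset

section

set_option linter.unusedSectionVars false

variable {F : Type} [Field F] [Fintype F] [DecidableEq F]

noncomputable instance instFC : Fintype (MulChar F ℂ) := Fintype.ofFinite _

theorem qm1_pos : (0 : ℝ) < (Fintype.card F : ℝ) - 1 := by
  have : 2 ≤ Fintype.card F := Fintype.one_lt_card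
  have : (2 : ℝ) ≤ Fintype.card F := by exact_mod_cast this
  linarith

theorem qm1_ne : (Fintype.card F : ℂ) - 1 ≠ 0 := by
  have h := (qm1_pos (F := F)).ne'
  intro h0
  apply h
  exact_mod_cast h0

theorem card_units_cast : ((Fintype.card Fˣ : ℕ) : ℂ) = (Fintype.card F : ℂ) - 1 := by
  have : 2 ≤ Fintype.card F := Fintype.one_lt_card
  rw [Fintype.card_units, Nat.cast_sub (by omega)]
  simp

theorem card_X : (Fintype.card (MulChar F ℂ) : ℂ) = (Fintype.card F : ℂ) - 1 := by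
  rw [← card_units_cast, ← Nat.card_eq_fintype_card, ← Nat.card_eq_fintype_card,
    MulChar.card_eq_card_units_of_hasEnoughRootsOfUnity F ℂ]

/-- orthogonality of the characters -/
theorem sum_char (a : F) :
    ∑ χ : MulChar F ℂ, χ a = if a = 1 then (Fintype.card F : ℂ) - 1 else 0 := by
  split_ifs with h
  · subst h
    simp only [map_one, sum_const, card_univ, nsmul_eq_mul, mul_one]
    exact card_X
  · obtain ⟨ψ, hψ⟩ := MulChar.exists_apply_ne_one_of_hasEnoughRootsOfUnity F ℂ h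
    have h1 : ∑ χ : MulChar F ℂ, χ a = ψ a * ∑ χ : MulChar F ℂ, χ a := by
      rw [mul_sum, ← Equiv.sum_comp (Equiv.mulLeft ψ)]
      refine sum_congr rfl fun χ _ => ?_
      simp [MulChar.mul_apply]
    have h2 : (1 - ψ a) * ∑ χ : MulChar F ℂ, χ a = 0 := by linear_combination h1
    rcases mul_eq_zero.1 h2 with h3 | h3
    · exact absurd (sub_eq_zero.1 h3).symm hψ
    · exact h3

theorem norm_char_le (χ : MulChar F ℂ) (x : F) : ‖χ x‖ ≤ 1 :=
  Pool.Agent.H435R3.Weil.WELE.mc_norm_le_one χ x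

theorem norm_char {χ : MulChar F ℂ} {x : F} (hx : x ≠ 0) : ‖χ x‖ = 1 := by
  have h1 : χ x ^ (Fintype.card F - 1) = 1 := by
    rw [← map_pow, FiniteField.pow_card_sub_one_eq_one x hx, map_one]
  have h2 : 1 < Fintype.card F := Fintype.one_lt_card
  exact Complex.norm_eq_one_of_pow_eq_one h1 (by omega)

theorem conj_char (χ : MulChar F ℂ) (x : F) : (starRingEnd ℂ) (χ x) = χ x⁻¹ := by
  by_cases hx : x = 0
  · subst hx
    have h0 : χ (0 : F) = 0 := MulChar.map_zero χ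
    rw [inv_zero, h0, map_zero]
  · have h1 : χ x * χ x⁻¹ = 1 := by rw [← map_mul, mul_inv_cancel₀ hx, map_one]
    rw [← Complex.inv_eq_conj (norm_char hx)]
    exact inv_eq_of_mul_eq_one_right h1

/-- the coefficients -/
noncomputable def cf (A : Finset F) (χ : MulChar F ℂ) : ℂ :=
  (∑ x ∈ A, χ x⁻¹) / ((Fintype.card F : ℂ) - 1)

/-- the expansion -/
theorem sum_cf (A : Finset F) (h0 : (0 : F) ∉ A) (z : F) :
    ∑ χ : MulChar F ℂ, cf A χ * χ z = if z ∈ A then 1 else 0 := by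
  have h1 : ∑ χ : MulChar F ℂ, cf A χ * χ z =
      (∑ x ∈ A, ∑ χ : MulChar F ℂ, χ (x⁻¹ * z)) / ((Fintype.card F : ℂ) - 1) := by
    unfold cf
    simp_rw [div_mul_eq_mul_div, ← sum_div, sum_mul]
    rw [sum_comm]
    simp_rw [map_mul]
  rw [h1]
  have h2 : ∀ x ∈ A, ∑ χ : MulChar F ℂ, χ (x⁻¹ * z) =
      if x = z then (Fintype.card F : ℂ) - 1 else 0 := by
    intro x hx
    have hx0 : x ≠ 0 := fun h => h0 (h ▸ hx)
    rw [sum_char]
    congr 1
    rw [eq_iff_iff, inv_mul_eq_one₀ hx0]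
  rw [sum_congr rfl h2, sum_ite_eq' A z]
  split_ifs
  · exact div_self qm1_ne
  · exact zero_div _

theorem cf_one (A : Finset F) (h0 : (0 : F) ∉ A) :
    cf A 1 = (A.card : ℂ) / ((Fintype.card F : ℂ) - 1) := by
  unfold cf
  congr 1
  rw [card_eq_sum_ones, Nat.cast_sum]
  refine sum_congr rfl fun x hx => ?_
  have hx0 : x⁻¹ ≠ 0 := inv_ne_zero fun h => h0 (h ▸ hx)
  rw [MulChar.one_apply (isUnit_iff_ne_zero.2 hx0)]
  simp

/-- Parseval -/
theorem parseval (A : Finset F) (h0 : (0 : F) ∉ A) :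
    ∑ χ : MulChar F ℂ, ‖cf A χ‖ ^ 2 = (A.card : ℝ) / ((Fintype.card F : ℝ) - 1) := by
  have h1 : ((∑ χ : MulChar F ℂ, ‖cf A χ‖ ^ 2 : ℝ) : ℂ) =
      (A.card : ℂ) / ((Fintype.card F : ℂ) - 1) := by
    push_cast
    have h2 : ∀ χ : MulChar F ℂ, ((‖cf A χ‖ : ℂ)) ^ 2 =
        (∑ x ∈ A, cf A χ * χ x) / ((Fintype.card F : ℂ) - 1) := by
      intro χ
      rw [← Complex.mul_conj', ← mul_sum, mul_div_assoc]
      congr 1
      unfold cf
      rw [map_div₀, map_sum]
      congr 1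
      · refine sum_congr rfl fun x _ => ?_
        rw [conj_char, inv_inv]
      · rw [map_sub, map_one, Complex.conj_natCast]
    rw [sum_congr rfl fun χ _ => h2 χ, ← sum_div, sum_comm]
    congr 1
    rw [sum_congr rfl fun x _ => sum_cf A h0 x]
    simp
  exact_mod_cast h1

end

/-- sums over tuples of characters with product one -/
theorem tuple_bound {X : Type} [CommGroup X] [Fintype X] [DecidableEq X] (u : X → ℝ)
    (hu : ∀ x, 0 ≤ u x) (m : ℕ) :
    ∑ φ : Fin (m + 2) → X, (if ∏ i, φ i = 1 then ∏ i, u (φ i) else 0) ≤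
      (∑ x, u x ^ 2) * (∑ x, u x) ^ m := by
  classical
  rw [← Equiv.sum_comp (Fin.consEquiv fun _ : Fin (m + 2) => X), Fintype.sum_prod_type, sum_comm,
    ← Equiv.sum_comp (Fin.consEquiv fun _ : Fin (m + 1) => X), Fintype.sum_prod_type, sum_comm]
  have h1 : ∀ ψ : Fin m → X, ∀ x y : X,
      (if ∏ i, (Fin.consEquiv fun _ : Fin (m + 2) => X)
        (x, (Fin.consEquiv fun _ : Fin (m + 1) => X) (y, ψ)) i = 1 then
        ∏ i, u ((Fin.consEquiv fun _ : Fin (m + 2) => X)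
        (x, (Fin.consEquiv fun _ : Fin (m + 1) => X) (y, ψ)) i) else 0) =
      if y = (x * ∏ i, ψ i)⁻¹ then (u x * u y) * ∏ i, u (ψ i) else 0 := by
    intro ψ x y
    rw [Fin.prod_univ_succ, Fin.prod_univ_succ, Fin.prod_univ_succ, Fin.prod_univ_succ]
    simp only [Fin.consEquiv_apply, Fin.cons_zero, Fin.cons_succ]
    have h2 : (x * (y * ∏ i, ψ i) = 1) ↔ (y = (x * ∏ i, ψ i)⁻¹) := by
      rw [eq_inv_iff_mul_eq_one]
      constructor
      · intro h; rw [← h]; ac_rfl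
      · intro h; rw [← h]; ac_rfl
    simp only [h2, mul_assoc]
  have h3 : ∀ ψ : Fin m → X, ∑ y : X, ∑ x : X,
      (if ∏ i, (Fin.consEquiv fun _ : Fin (m + 2) => X)
        (x, (Fin.consEquiv fun _ : Fin (m + 1) => X) (y, ψ)) i = 1 then
        ∏ i, u ((Fin.consEquiv fun _ : Fin (m + 2) => X)
        (x, (Fin.consEquiv fun _ : Fin (m + 1) => X) (y, ψ)) i) else 0) ≤
      (∑ x, u x ^ 2) * ∏ i, u (ψ i) := by
    intro ψ
    simp_rw [h1]
    rw [sum_comm]
    simp only [sum_ite_eq', mem_univ, if_true]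
    rw [← sum_mul]
    refine mul_le_mul_of_nonneg_right ?_ (prod_nonneg fun i _ => hu _)
    have h4 : ∀ x : X, u x * u (x * ∏ i, ψ i)⁻¹ ≤
        (u x ^ 2 + u (x * ∏ i, ψ i)⁻¹ ^ 2) / 2 := by
      intro x
      nlinarith [sq_nonneg (u x - u (x * ∏ i, ψ i)⁻¹)]
    refine (sum_le_sum fun x _ => h4 x).trans ?_
    rw [← sum_div, sum_add_distrib]
    have h5 : ∑ x : X, u (x * ∏ i, ψ i)⁻¹ ^ 2 = ∑ x : X, u x ^ 2 :=
      Equiv.sum_comp ((Equiv.mulRight (∏ i, ψ i)).trans (Equiv.inv X)) (fun x => u x ^ 2)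
    rw [h5]
    linarith
  calc _ ≤ ∑ ψ : Fin m → X, (∑ x, u x ^ 2) * ∏ i, u (ψ i) := by
        refine sum_le_sum fun ψ _ => ?_
        exact h3 ψ
    _ = (∑ x, u x ^ 2) * (∑ x, u x) ^ m := by
        rw [← mul_sum, Fintype.sum_pow]

end Pool.Agent.T6.H29.OR
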