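import Pool.Agent.T6.H29.OR.Ch

/-!
# The counting argument
-/

set_option autoImplicit false
set_option linter.unusedSectionVars false

namespace Pool.Agent.T6.H29.OR

open Finset

variable {F : Type} [Field F] [Fintype F] [DecidableEq F]

theorem prod_char {ι : Type} (φ : ι → MulChar F ℂ) (y : F) (s : Finset ι) (hs : s.Nonempty) :
    (∏ i ∈ s, φ i) y = ∏ i ∈ s, φ i y := by
  classical
  induction hs using Finset.Nonempty.cons_induction with
  | singleton a => simp
  | cons a s ha hs ih => rw [prod_cons, prod_cons, MulChar.mul_apply, ih]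

/-- expansion of the number of patterns in terms of characters -/
theorem expand (m : ℕ) (b : Fin (m + 1) → F) (A : Finset F) (h0 : (0 : F) ∉ A) :
    ∑ y : F, ∑ t : F, ∏ i, (if y * (t - b i) ∈ A then (1 : ℂ) else 0) =
      ∑ φ : Fin (m + 1) → MulChar F ℂ, (∏ i, cf A (φ i)) * (∑ y : F, (∏ i, φ i) y) *
        ∑ t : F, ∏ i, φ i (t - b i) := by
  have h1 : ∀ y t : F, ∏ i, (if y * (t - b i) ∈ A then (1 : ℂ) else 0) =
      ∑ φ : Fin (m + 1) → MulChar F ℂ,
        (∏ i, cf A (φ i)) * ((∏ i, φ i) y * ∏ i, φ i (t - b i)) := by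
    intro y t
    rw [prod_congr rfl fun i _ => (sum_cf A h0 (y * (t - b i))).symm, prod_univ_sum]
    rw [Fintype.piFinset_univ]
    refine sum_congr rfl fun φ _ => ?_
    rw [prod_mul_distrib]
    congr 1
    rw [prod_char φ y univ ⟨0, mem_univ _⟩, ← prod_mul_distrib]
    refine prod_congr rfl fun i _ => ?_
    rw [map_mul]
  simp_rw [h1]
  calc ∑ y : F, ∑ t : F, ∑ φ : Fin (m + 1) → MulChar F ℂ,
        (∏ i, cf A (φ i)) * ((∏ i, φ i) y * ∏ i, φ i (t - b i))
      = ∑ y : F, ∑ φ : Fin (m + 1) → MulChar F ℂ, ∑ t : F,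
        (∏ i, cf A (φ i)) * ((∏ i, φ i) y * ∏ i, φ i (t - b i)) :=
        sum_congr rfl fun y _ => sum_comm
    _ = ∑ φ : Fin (m + 1) → MulChar F ℂ, ∑ y : F, ∑ t : F,
        (∏ i, cf A (φ i)) * ((∏ i, φ i) y * ∏ i, φ i (t - b i)) := sum_comm
    _ = _ := by
        refine sum_congr rfl fun φ _ => ?_
        rw [mul_assoc, sum_mul_sum, mul_sum]
        refine sum_congr rfl fun y _ => ?_
        rw [mul_sum]

/-- The main inequality: if `A ⊆ F \ {0}` does not contain the `k = m + 2` points
`x + a_i y` for any `x` and `y ≠ 0`, then the density of `A` is small compared to the sum of the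
absolute values of its multiplicative Fourier coefficients. -/
theorem key (m : ℕ) (a : Fin (m + 2) → F) (ha : Function.Injective a) (A : Finset F)
    (h0 : (0 : F) ∉ A) (hfree : ∀ x y : F, y ≠ 0 → ¬ ∀ i, x + a i * y ∈ A) :
    ((A.card : ℝ) / ((Fintype.card F : ℝ) - 1)) ^ (m + 1) * ((Fintype.card F : ℝ) - (m + 2)) ≤
      (m + 2) * Real.sqrt (Fintype.card F) * (∑ χ : MulChar F ℂ, ‖cf A χ‖) ^ m := by
  classical
  obtain ⟨q, hq⟩ : ∃ q : ℝ, q = (Fintype.card F : ℝ) := ⟨_, rfl⟩
  obtain ⟨α, hα⟩ : ∃ α : ℝ, α = (A.card : ℝ) / ((Fintype.card F : ℝ) - 1) := ⟨_, rfl⟩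
  have hq1 := qm1_pos (F := F)
  have hα0 : 0 ≤ α := by rw [hα]; positivity
  rw [← hα]
  rcases hα0.eq_or_lt with hz | hpos
  · rw [← hz, zero_pow (by omega), zero_mul]
    positivity
  -- the expansion
  have hS := expand (m + 1) (fun i => - a i) A h0
  have hS0 : ∑ y : F, ∑ t : F, ∏ i : Fin (m + 2), (if y * (t - (- a i)) ∈ A then (1 : ℂ) else 0)
      = 0 := by
    refine sum_eq_zero fun y _ => sum_eq_zero fun t _ => ?_
    by_cases hy : y = 0
    · refine prod_eq_zero (mem_univ 0) ?_
      rw [hy, zero_mul, if_neg h0]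
    · obtain ⟨i, hi⟩ := not_forall.1 (hfree (y * t) y hy)
      refine prod_eq_zero (mem_univ i) ?_
      rw [if_neg]
      rwa [sub_neg_eq_add, mul_add, mul_comm y (a i)]
  rw [hS0] at hS
  -- the sum over y
  have hsy : ∀ φ : Fin (m + 2) → MulChar F ℂ, ∑ y : F, (∏ i, φ i) y =
      if ∏ i, φ i = 1 then (Fintype.card F : ℂ) - 1 else 0 := by
    intro φ
    split_ifs with h
    · rw [h, MulChar.sum_one_eq_card_units, card_units_cast]
    · exact MulChar.sum_eq_zero_of_ne_one h
  simp_rw [hsy] at hS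
  have hS1 : ∑ φ : Fin (m + 2) → MulChar F ℂ, (if ∏ i, φ i = 1 then (∏ i, cf A (φ i)) *
      ∑ t : F, ∏ i, φ i (t - (- a i)) else 0) = 0 := by
    have h2 : ((Fintype.card F : ℂ) - 1) * ∑ φ : Fin (m + 2) → MulChar F ℂ,
        (if ∏ i, φ i = 1 then (∏ i, cf A (φ i)) *
        ∑ t : F, ∏ i, φ i (t - (- a i)) else 0) = 0 := by
      rw [mul_sum]
      refine Eq.trans ?_ hS.symm
      refine sum_congr rfl fun φ _ => ?_
      split_ifs
      · ring
      · ring
    exact (mul_eq_zero.1 h2).resolve_left qm1_ne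
  -- the main term
  rw [← add_sum_erase univ _ (mem_univ (1 : Fin (m + 2) → MulChar F ℂ))] at hS1
  have hmain : (if ∏ i, (1 : Fin (m + 2) → MulChar F ℂ) i = 1 then
      (∏ i, cf A ((1 : Fin (m + 2) → MulChar F ℂ) i)) *
      ∑ t : F, ∏ i, (1 : Fin (m + 2) → MulChar F ℂ) i (t - (- a i)) else 0) =
      ((α ^ (m + 2) * (q - (m + 2)) : ℝ) : ℂ) := by
    rw [if_pos (by simp)]
    simp only [Pi.one_apply, prod_const, card_univ, Fintype.card_fin]
    rw [cf_one A h0]
    have h3 : ∑ t : F, ∏ i : Fin (m + 2), (1 : MulChar F ℂ) (t - (- a i)) = (q : ℂ) - (m + 2) := by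
      have h4 : ∀ t : F, ∏ i : Fin (m + 2), (1 : MulChar F ℂ) (t - (- a i)) =
          if t ∈ univ.image (fun i => - a i) then 0 else 1 := by
        intro t
        split_ifs with ht
        · obtain ⟨i, _, hi⟩ := mem_image.1 ht
          refine prod_eq_zero (mem_univ i) ?_
          rw [hi, sub_self]
          exact MulChar.map_zero 1
        · refine prod_eq_one fun i _ => ?_
          apply MulChar.one_apply
          rw [isUnit_iff_ne_zero, sub_ne_zero]
          intro hti
          exact ht (mem_image.2 ⟨i, mem_univ _, hti.symm⟩)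
      rw [sum_congr rfl fun t _ => h4 t]
      have h5 : (univ.image (fun i => - a i)).card = m + 2 := by
        rw [card_image_of_injective _ (fun i j hij => ha (neg_injective hij))]
        simp
      have h6 : ∑ t : F, (if t ∈ univ.image (fun i => - a i) then (0 : ℂ) else 1) =
          (univ : Finset F).card - (univ.image (fun i => - a i)).card := by
        rw [eq_sub_iff_add_eq, card_eq_sum_ones univ, Nat.cast_sum]
        have h7 : ((univ.image (fun i => - a i)).card : ℂ) =
            ∑ t : F, (if t ∈ univ.image (fun i => - a i) then (1 : ℂ) else 0) := by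
          rw [sum_ite_mem, univ_inter]
          simp
        rw [h7, ← sum_add_distrib]
        refine sum_congr rfl fun t _ => ?_
        split_ifs <;> simp
      rw [h6, h5, card_univ, hq]
      push_cast
      ring
    rw [h3, hα]
    push_cast
    ring
  rw [hmain] at hS1
  -- the other terms
  have hother : ‖∑ φ ∈ univ.erase (1 : Fin (m + 2) → MulChar F ℂ),
      (if ∏ i, φ i = 1 then (∏ i, cf A (φ i)) * ∑ t : F, ∏ i, φ i (t - (- a i)) else 0)‖ ≤
      (m + 2) * Real.sqrt (Fintype.card F) * (α * (∑ χ : MulChar F ℂ, ‖cf A χ‖) ^ m) := by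
    refine (norm_sum_le _ _).trans ?_
    have h4 : ∀ φ ∈ univ.erase (1 : Fin (m + 2) → MulChar F ℂ),
        ‖(if ∏ i, φ i = 1 then (∏ i, cf A (φ i)) * ∑ t : F, ∏ i, φ i (t - (- a i)) else 0)‖ ≤
        (m + 2) * Real.sqrt (Fintype.card F) *
          (if ∏ i, φ i = 1 then ∏ i, ‖cf A (φ i)‖ else 0) := by
      intro φ hφ
      split_ifs with h1
      · rw [norm_mul, norm_prod, mul_comm]
        refine mul_le_mul_of_nonneg_right ?_ (prod_nonneg fun i _ => norm_nonneg _)
        -- Weil
        have hne : φ ≠ 1 := (mem_erase.1 hφ).1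
        obtain ⟨i0, hi0⟩ : ∃ i, φ i ≠ 1 := by
          by_contra hno
          push Not at hno
          exact hne (funext hno)
        have hinj : Function.Injective (fun i => - a i) := fun i j hij => ha (neg_injective hij)
        let χ : F → MulChar F ℂ := Function.extend (fun i => - a i) φ 1
        have hχ : ∀ i, χ (- a i) = φ i := fun i => hinj.extend_apply φ 1 i
        have hw := W.weil_chars (univ.image (fun i => - a i)) χ
          ⟨- a i0, mem_image_of_mem _ (mem_univ _), by rw [hχ]; exact hi0⟩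
        have h5 : (univ.image (fun i => - a i)).card = m + 2 := by
          rw [card_image_of_injective _ hinj]
          simp
        rw [h5] at hw
        push_cast at hw
        refine le_trans (le_of_eq ?_) hw
        congr 1
        refine sum_congr rfl fun t _ => ?_
        rw [prod_image (fun i _ j _ hij => hinj hij)]
        exact prod_congr rfl fun i _ => by rw [hχ]
      · simp
    refine (sum_le_sum h4).trans ?_
    rw [← mul_sum]
    refine mul_le_mul_of_nonneg_left ?_ (by positivity)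
    refine (sum_le_sum_of_subset_of_nonneg (erase_subset _ univ) ?_).trans ?_
    · intro φ _ _
      split_ifs
      · exact prod_nonneg fun i _ => norm_nonneg _
      · exact le_rfl
    · have h5 := tuple_bound (fun χ : MulChar F ℂ => ‖cf A χ‖) (fun _ => norm_nonneg _) m
      rw [parseval A h0, ← hα] at h5
      exact h5
  have hle : α ^ (m + 2) * (q - (m + 2)) ≤
      (m + 2) * Real.sqrt (Fintype.card F) * (α * (∑ χ : MulChar F ℂ, ‖cf A χ‖) ^ m) := by
    have h6 : ((α ^ (m + 2) * (q - (m + 2)) : ℝ) : ℂ) =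
        -∑ φ ∈ univ.erase (1 : Fin (m + 2) → MulChar F ℂ),
      (if ∏ i, φ i = 1 then (∏ i, cf A (φ i)) * ∑ t : F, ∏ i, φ i (t - (- a i)) else 0) :=
      eq_neg_of_add_eq_zero_left hS1
    have h7 := congrArg norm h6
    rw [norm_neg, Complex.norm_real] at h7
    calc α ^ (m + 2) * (q - (m + 2)) ≤ ‖α ^ (m + 2) * (q - (m + 2))‖ := Real.le_norm_self _
      _ ≤ _ := by rw [h7]; exact hother
  rw [← hq]
  rw [← hq] at hle
  have h8 : α * (α ^ (m + 1) * (q - (m + 2))) ≤
      α * ((m + 2) * Real.sqrt q * (∑ χ : MulChar F ℂ, ‖cf A χ‖) ^ m) := by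
    calc α * (α ^ (m + 1) * (q - (m + 2))) = α ^ (m + 2) * (q - (m + 2)) := by ring
      _ ≤ _ := hle
      _ = _ := by ring
  exact le_of_mul_le_mul_left h8 hpos

end Pool.Agent.T6.H29.OR
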