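import Pool.Agent.T6.H29.OR.Inv

/-!
# The bounds in a finite field
-/

set_option autoImplicit false
set_option linter.unusedSectionVars false

namespace Pool.Agent.T6.H29.OR

open Finset

variable {F : Type} [Field F] [Fintype F] [DecidableEq F]

theorem card_le_qm1 (A : Finset F) (h0 : (0 : F) ∉ A) : (A.card : ℝ) ≤ (Fintype.card F : ℝ) - 1 := by
  have h1 : A.card < Fintype.card F := Finset.card_lt_univ_of_notMem h0
  have h2 : ((A.card + 1 : ℕ) : ℝ) ≤ Fintype.card F := by exact_mod_cast h1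
  push_cast at h2
  linarith

/-- sets invariant under multiplication by an element of large order -/
theorem field_inv (k : ℕ) (hk : 3 ≤ k) (a : Fin k → F) (ha : Function.Injective a) {θ : F}
    (hθ : θ ≠ 0) (A : Finset F) (h0 : (0 : F) ∉ A) (hA : ∀ x ∈ A, θ * x ∈ A)
    (hfree : ∀ x y : F, y ≠ 0 → ¬ ∀ i, x + a i * y ∈ A) (r : ℝ)
    (hr : (Fintype.card F : ℝ) - 1 ≤ r * orderOf θ) :
    (A.card : ℝ) ≤ 2 * k * r ^ (((k : ℝ) - 2) / k) * (Fintype.card F : ℝ) ^ (1 - 1 / (k : ℝ)) := by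
  obtain ⟨m, rfl⟩ : ∃ m, k = m + 2 := ⟨k - 2, by omega⟩
  have hm : 1 ≤ m := by omega
  obtain ⟨Q, hQ⟩ : ∃ Q : ℝ, Q = (Fintype.card F : ℝ) := ⟨_, rfl⟩
  have hkey := key m a ha A h0 hfree
  have hM := sum_cf_inv hθ A h0 hA r hr
  have hcard := card_le_qm1 A h0
  have hQ2 : (2 : ℝ) ≤ Q := by
    rw [hQ]
    exact_mod_cast (Fintype.one_lt_card : 1 < Fintype.card F)
  have hordle : (orderOf θ : ℝ) ≤ Q - 1 := by
    have h1 : orderOf θ ≤ Fintype.card F - 1 :=
      orderOf_le_of_pow_eq_one (by have : 1 < Fintype.card F := Fintype.one_lt_card; omega)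
        (FiniteField.pow_card_sub_one_eq_one θ hθ)
    have h2 : orderOf θ + 1 ≤ Fintype.card F := by
      have : 1 < Fintype.card F := Fintype.one_lt_card
      omega
    have h3 : ((orderOf θ + 1 : ℕ) : ℝ) ≤ Q := by rw [hQ]; exact_mod_cast h2
    push_cast at h3
    linarith
  rw [← hQ] at hkey hM hcard hr ⊢
  have hord0 : (0 : ℝ) < orderOf θ := by exact_mod_cast orderOf_pos' hθ
  have hr1 : 1 ≤ r := by
    have h1 : 0 < r := by
      by_contra h
      push Not at h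
      nlinarith
    by_contra h
    push Not at h
    nlinarith
  have hr0 : 0 ≤ r := by linarith
  obtain ⟨α, hα⟩ : ∃ α : ℝ, α = (A.card : ℝ) / (Q - 1) := ⟨_, rfl⟩
  rw [← hα] at hkey hM
  have hα0 : 0 ≤ α := by rw [hα]; exact div_nonneg (Nat.cast_nonneg _) (by linarith)
  have hAα : (A.card : ℝ) ≤ α * Q := by
    have : (A.card : ℝ) = α * (Q - 1) := by
      rw [hα, div_mul_cancel₀]
      linarith
    rw [this]
    nlinarith
  push_cast
  set T : ℝ := 2 * ((m : ℝ) + 2) * r ^ (((m : ℝ) + 2 - 2) / (m + 2)) *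
    Q ^ (1 - 1 / ((m : ℝ) + 2)) with hT
  have hm2 : (0 : ℝ) < (m : ℝ) + 2 := by positivity
  have hT0 : 0 ≤ T := by positivity
  have hTk : T ^ (m + 2) = (2 * ((m : ℝ) + 2)) ^ (m + 2) * r ^ m * Q ^ (m + 1) := by
    rw [hT, mul_pow, mul_pow]
    congr 1
    · congr 1
      rw [← Real.rpow_natCast (r ^ _), ← Real.rpow_mul hr0, ← Real.rpow_natCast r m]
      congr 1
      push_cast
      field_simp
      ring
    · rw [← Real.rpow_natCast (Q ^ _), ← Real.rpow_mul (by linarith), ← Real.rpow_natCast Q (m + 1)]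
      congr 1
      push_cast
      field_simp
      ring
  refine hAα.trans ?_
  refine le_of_pow_le_pow_left₀ (n := m + 2) (by omega) hT0 ?_
  rw [hTk]
  have hc1 : (1 : ℝ) ≤ 2 * ((m : ℝ) + 2) := by nlinarith [(Nat.cast_nonneg m : (0 : ℝ) ≤ m)]
  by_cases hsmall : Q < 2 * ((m : ℝ) + 2)
  · have hα1 : α ≤ 1 := by
      rw [hα, div_le_one (by linarith)]
      exact hcard
    calc (α * Q) ^ (m + 2) ≤ Q ^ (m + 2) := by
          apply pow_le_pow_left₀ (by positivity)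
          nlinarith
      _ = Q * Q ^ (m + 1) := by ring
      _ ≤ ((2 * ((m : ℝ) + 2)) ^ (m + 2) * r ^ m) * Q ^ (m + 1) := by
          apply mul_le_mul_of_nonneg_right _ (by positivity)
          have h1 : (1 : ℝ) ≤ r ^ m := one_le_pow₀ hr1
          have h2 : Q ≤ (2 * ((m : ℝ) + 2)) ^ (m + 2) :=
            hsmall.le.trans (le_self_pow₀ hc1 (by omega))
          nlinarith
      _ = _ := by ring
  · push Not at hsmall
    rcases hα0.eq_or_lt with hz | hpos
    · rw [← hz, zero_mul, zero_pow (by omega)]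
      positivity
    have h1 : α ^ (m + 1) * (Q / 2) ≤ ((m : ℝ) + 2) * Real.sqrt Q * (Real.sqrt (r * α)) ^ m := by
      calc α ^ (m + 1) * (Q / 2) ≤ α ^ (m + 1) * (Q - (m + 2)) := by
            apply mul_le_mul_of_nonneg_left _ (by positivity)
            linarith
        _ ≤ _ := hkey
        _ ≤ _ := by
            apply mul_le_mul_of_nonneg_left _ (by positivity)
            exact pow_le_pow_left₀ (sum_nonneg fun _ _ => norm_nonneg _) hM m
    have h2 := pow_le_pow_left₀ (by positivity) h1 2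
    have hs1 : Real.sqrt Q ^ 2 = Q := Real.sq_sqrt (by linarith)
    have hs2 : Real.sqrt (r * α) ^ 2 = r * α := Real.sq_sqrt (by positivity)
    have h3 : (((m : ℝ) + 2) * Real.sqrt Q * (Real.sqrt (r * α)) ^ m) ^ 2 =
        ((m : ℝ) + 2) ^ 2 * Q * (r * α) ^ m := by
      rw [mul_pow, mul_pow, hs1, ← pow_mul, mul_comm m 2, pow_mul, hs2]
    rw [h3] at h2
    -- α ^ (m+2) Q ≤ 4 (m+2)^2 r^m
    have h4 : α ^ (m + 2) * Q ≤ (2 * ((m : ℝ) + 2)) ^ 2 * r ^ m := by
      have h5 : (α ^ m * Q / 4) * (α ^ (m + 2) * Q) ≤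
          (α ^ m * Q / 4) * ((2 * ((m : ℝ) + 2)) ^ 2 * r ^ m) := by
        calc (α ^ m * Q / 4) * (α ^ (m + 2) * Q) = (α ^ (m + 1) * (Q / 2)) ^ 2 := by ring
          _ ≤ _ := h2
          _ = _ := by rw [mul_pow]; ring
      exact le_of_mul_le_mul_left h5 (by positivity)
    calc (α * Q) ^ (m + 2) = (α ^ (m + 2) * Q) * Q ^ (m + 1) := by rw [mul_pow]; ring
      _ ≤ ((2 * ((m : ℝ) + 2)) ^ 2 * r ^ m) * Q ^ (m + 1) := by
          apply mul_le_mul_of_nonneg_right h4 (by positivity)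
      _ ≤ ((2 * ((m : ℝ) + 2)) ^ (m + 2) * r ^ m) * Q ^ (m + 1) := by
          apply mul_le_mul_of_nonneg_right _ (by positivity)
          apply mul_le_mul_of_nonneg_right _ (by positivity)
          exact pow_le_pow_right₀ hc1 (by omega)

/-- geometric progressions -/
theorem field_gp (k : ℕ) (hk : 3 ≤ k) (a : Fin k → F) (ha : Function.Injective a) {θ v : F}
    (hθ : θ ≠ 0) (hv : v ≠ 0) (L : ℕ)
    (hfree : ∀ x y : F, y ≠ 0 → ¬ ∀ i, x + a i * y ∈ (range L).image fun j => v * θ ^ j) :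
    (((range L).image fun j => v * θ ^ j).card : ℝ) ≤
      2 * k * (2 + Real.log (Fintype.card F)) *
        (Fintype.card F : ℝ) ^ (1 - 1 / (2 * (k : ℝ) - 2)) := by
  obtain ⟨m, rfl⟩ : ∃ m, k = m + 2 := ⟨k - 2, by omega⟩
  have hm : 1 ≤ m := by omega
  obtain ⟨Q, hQ⟩ : ∃ Q : ℝ, Q = (Fintype.card F : ℝ) := ⟨_, rfl⟩
  obtain ⟨A, hAdef⟩ : ∃ A, A = (range L).image fun j => v * θ ^ j := ⟨_, rfl⟩
  rw [← hAdef] at hfree ⊢
  have h0 : (0 : F) ∉ A := by
    rw [hAdef]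
    intro h
    obtain ⟨j, _, hj⟩ := mem_image.1 h
    exact mul_ne_zero hv (pow_ne_zero j hθ) hj
  have hkey := key m a ha A h0 hfree
  have hM := sum_cf_gp hθ hv L
  rw [← hAdef] at hM
  have hcard := card_le_qm1 A h0
  have hQ2 : (2 : ℝ) ≤ Q := by
    rw [hQ]
    exact_mod_cast (Fintype.one_lt_card : 1 < Fintype.card F)
  rw [← hQ] at hkey hM hcard ⊢
  obtain ⟨Λ, hΛ⟩ : ∃ Λ : ℝ, Λ = 2 + Real.log Q := ⟨_, rfl⟩
  rw [← hΛ] at hM ⊢
  have hΛ1 : 1 ≤ Λ := by
    rw [hΛ]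
    have := Real.log_nonneg (show (1 : ℝ) ≤ Q by linarith)
    linarith
  have hΛ0 : 0 ≤ Λ := by linarith
  obtain ⟨α, hα⟩ : ∃ α : ℝ, α = (A.card : ℝ) / (Q - 1) := ⟨_, rfl⟩
  rw [← hα] at hkey
  have hα0 : 0 ≤ α := by rw [hα]; exact div_nonneg (Nat.cast_nonneg _) (by linarith)
  have hAα : (A.card : ℝ) ≤ α * Q := by
    have : (A.card : ℝ) = α * (Q - 1) := by
      rw [hα, div_mul_cancel₀]
      linarith
    rw [this]
    nlinarith
  push_cast
  set T : ℝ := 2 * ((m : ℝ) + 2) * Λ * Q ^ (1 - 1 / (2 * ((m : ℝ) + 2) - 2)) with hT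
  have hT0 : 0 ≤ T := by positivity
  have hTk : T ^ (2 * m + 2) = (2 * ((m : ℝ) + 2)) ^ (2 * m + 2) * Λ ^ (2 * m + 2) *
      Q ^ (2 * m + 1) := by
    rw [hT, mul_pow, mul_pow]
    congr 1
    rw [← Real.rpow_natCast (Q ^ _), ← Real.rpow_mul (by linarith),
      ← Real.rpow_natCast Q (2 * m + 1)]
    congr 1
    have h1 : (2 * ((m : ℝ) + 2) - 2) = 2 * ((m : ℝ) + 1) := by ring
    have h2 : (m : ℝ) + 1 ≠ 0 := by positivity
    rw [h1]
    push_cast
    field_simp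
    ring
  refine hAα.trans ?_
  refine le_of_pow_le_pow_left₀ (n := 2 * m + 2) (by omega) hT0 ?_
  rw [hTk]
  have hc1 : (1 : ℝ) ≤ 2 * ((m : ℝ) + 2) := by nlinarith [(Nat.cast_nonneg m : (0 : ℝ) ≤ m)]
  by_cases hsmall : Q < 2 * ((m : ℝ) + 2)
  · have hα1 : α ≤ 1 := by
      rw [hα, div_le_one (by linarith)]
      exact hcard
    calc (α * Q) ^ (2 * m + 2) ≤ Q ^ (2 * m + 2) := by
          apply pow_le_pow_left₀ (by positivity)
          nlinarith
      _ = Q * Q ^ (2 * m + 1) := by ring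
      _ ≤ ((2 * ((m : ℝ) + 2)) ^ (2 * m + 2) * Λ ^ (2 * m + 2)) * Q ^ (2 * m + 1) := by
          apply mul_le_mul_of_nonneg_right _ (by positivity)
          have h1 : (1 : ℝ) ≤ Λ ^ (2 * m + 2) := one_le_pow₀ hΛ1
          have h2 : Q ≤ (2 * ((m : ℝ) + 2)) ^ (2 * m + 2) :=
            hsmall.le.trans (le_self_pow₀ hc1 (by omega))
          nlinarith
      _ = _ := by ring
  · push Not at hsmall
    have h1 : α ^ (m + 1) * (Q / 2) ≤ ((m : ℝ) + 2) * Real.sqrt Q * Λ ^ m := by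
      calc α ^ (m + 1) * (Q / 2) ≤ α ^ (m + 1) * (Q - (m + 2)) := by
            apply mul_le_mul_of_nonneg_left _ (by positivity)
            linarith
        _ ≤ _ := hkey
        _ ≤ _ := by
            apply mul_le_mul_of_nonneg_left _ (by positivity)
            exact pow_le_pow_left₀ (sum_nonneg fun _ _ => norm_nonneg _) hM m
    have h2 := pow_le_pow_left₀ (by positivity) h1 2
    have hs1 : Real.sqrt Q ^ 2 = Q := Real.sq_sqrt (by linarith)
    have h3 : (((m : ℝ) + 2) * Real.sqrt Q * Λ ^ m) ^ 2 =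
        ((m : ℝ) + 2) ^ 2 * Q * Λ ^ (2 * m) := by
      rw [mul_pow, mul_pow, hs1, ← pow_mul, mul_comm m 2]
    rw [h3] at h2
    have h4 : α ^ (2 * m + 2) * Q ≤ (2 * ((m : ℝ) + 2)) ^ 2 * Λ ^ (2 * m) := by
      have h5 : (Q / 4) * (α ^ (2 * m + 2) * Q) ≤
          (Q / 4) * ((2 * ((m : ℝ) + 2)) ^ 2 * Λ ^ (2 * m)) := by
        calc (Q / 4) * (α ^ (2 * m + 2) * Q) = (α ^ (m + 1) * (Q / 2)) ^ 2 := by ring
          _ ≤ _ := h2
          _ = _ := by ring
      exact le_of_mul_le_mul_left h5 (by positivity)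
    calc (α * Q) ^ (2 * m + 2) = (α ^ (2 * m + 2) * Q) * Q ^ (2 * m + 1) := by rw [mul_pow]; ring
      _ ≤ ((2 * ((m : ℝ) + 2)) ^ 2 * Λ ^ (2 * m)) * Q ^ (2 * m + 1) := by
          apply mul_le_mul_of_nonneg_right h4 (by positivity)
      _ ≤ ((2 * ((m : ℝ) + 2)) ^ (2 * m + 2) * Λ ^ (2 * m + 2)) * Q ^ (2 * m + 1) := by
          apply mul_le_mul_of_nonneg_right _ (by positivity)
          apply mul_le_mul (pow_le_pow_right₀ hc1 (by omega)) (pow_le_pow_right₀ hΛ1 (by omega))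
            (by positivity) (by positivity)

end Pool.Agent.T6.H29.OR
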