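import Pool.Agent.T6.H29.OR.Cnt

/-!
# Sets invariant under multiplication, and geometric progressions
-/

set_option autoImplicit false
set_option linter.unusedSectionVars false

namespace Pool.Agent.T6.H29.OR

open Finset

variable {F : Type} [Field F] [Fintype F] [DecidableEq F]

theorem orderOf_pos' {θ : F} (hθ : θ ≠ 0) : 0 < orderOf θ := by
  rw [orderOf_pos_iff, isOfFinOrder_iff_pow_eq_one]
  exact ⟨Fintype.card F - 1, by have : 1 < Fintype.card F := Fintype.one_lt_card; omega,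
    FiniteField.pow_card_sub_one_eq_one θ hθ⟩

theorem geom_root (n : ℕ) (z : ℂ) (hz : z ^ n = 1) (hne : z ≠ 1) : ∑ j ∈ range n, z ^ j = 0 := by
  have h := mul_geom_sum z n
  rw [hz, sub_self] at h
  exact (mul_eq_zero.1 h).resolve_left (sub_ne_zero.2 hne)

/-- every root of unity of order dividing the order of `θ` is the value at `θ` of the same number of
characters -/
theorem count_char {θ : F} (hθ : θ ≠ 0) (ω : ℂ) (hω : ω ^ orderOf θ = 1) :
    (orderOf θ : ℝ) * ((univ.filter fun χ : MulChar F ℂ => χ θ = ω).card : ℝ) =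
      (Fintype.card F : ℝ) - 1 := by
  classical
  have hn := orderOf_pos' hθ
  have hω0 : ω ≠ 0 := by
    rintro rfl
    rw [zero_pow hn.ne'] at hω
    exact zero_ne_one hω
  have hχθ : ∀ χ : MulChar F ℂ, χ θ ^ orderOf θ = 1 := by
    intro χ
    rw [← map_pow, pow_orderOf_eq_one, map_one]
  have h1 : ∀ χ : MulChar F ℂ, ∑ j ∈ range (orderOf θ), (χ θ * ω⁻¹) ^ j =
      if χ θ = ω then (orderOf θ : ℂ) else 0 := by
    intro χ
    split_ifs with h
    · rw [h, mul_inv_cancel₀ hω0]
      simp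
    · apply geom_root
      · rw [mul_pow, hχθ, inv_pow, hω, inv_one, mul_one]
      · intro h2
        apply h
        have h3 := congrArg (· * ω) h2
        simpa [mul_assoc, inv_mul_cancel₀ hω0] using h3
  have h2 : ∑ χ : MulChar F ℂ, ∑ j ∈ range (orderOf θ), (χ θ * ω⁻¹) ^ j =
      (Fintype.card F : ℂ) - 1 := by
    rw [sum_comm]
    have h3 : ∀ j ∈ range (orderOf θ), ∑ χ : MulChar F ℂ, (χ θ * ω⁻¹) ^ j =
        if j = 0 then (Fintype.card F : ℂ) - 1 else 0 := by
      intro j hj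
      have h4 : ∀ χ : MulChar F ℂ, (χ θ * ω⁻¹) ^ j = χ (θ ^ j) * (ω⁻¹) ^ j := by
        intro χ
        rw [mul_pow, map_pow]
      simp_rw [h4]
      rw [← sum_mul, sum_char]
      by_cases hj0 : j = 0
      · simp [hj0]
      · have h5 : θ ^ j ≠ 1 := by
          intro h6
          have := orderOf_le_of_pow_eq_one (Nat.pos_of_ne_zero hj0) h6
          rw [mem_range] at hj
          omega
        rw [if_neg h5, if_neg hj0, zero_mul]
    rw [sum_congr rfl h3, sum_ite_eq' (range (orderOf θ)) 0, if_pos (mem_range.2 hn)]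
  simp_rw [h1] at h2
  rw [← sum_filter, sum_const, nsmul_eq_mul, mul_comm] at h2
  exact_mod_cast h2

/-- the coefficients of an invariant set -/
theorem cf_eq_zero {θ : F} (hθ : θ ≠ 0) (A : Finset F) (hA : ∀ x ∈ A, θ * x ∈ A)
    (χ : MulChar F ℂ) (hχ : χ θ ≠ 1) : cf A χ = 0 := by
  have hinj : Set.InjOn (fun x => θ * x) (A : Set F) := fun x _ y _ h => mul_left_cancel₀ hθ h
  have himg : A.image (fun x => θ * x) = A := by
    apply eq_of_subset_of_card_le
    · intro y hy
      obtain ⟨x, hx, rfl⟩ := mem_image.1 hy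
      exact hA x hx
    · rw [card_image_of_injOn hinj]
  have h1 : ∑ x ∈ A, χ x⁻¹ = χ θ⁻¹ * ∑ x ∈ A, χ x⁻¹ := by
    conv_lhs => rw [← himg, sum_image hinj]
    rw [mul_sum]
    refine sum_congr rfl fun x _ => ?_
    rw [mul_inv, map_mul]
  have h2 : χ θ⁻¹ ≠ 1 := by
    intro h
    apply hχ
    have h3 : χ θ * χ θ⁻¹ = 1 := by rw [← map_mul, mul_inv_cancel₀ hθ, map_one]
    rwa [h, mul_one] at h3
  have h3 : (1 - χ θ⁻¹) * ∑ x ∈ A, χ x⁻¹ = 0 := by linear_combination h1
  unfold cf
  rw [(mul_eq_zero.1 h3).resolve_left (sub_ne_zero.2 (Ne.symm h2)), zero_div]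

theorem sum_cf_inv {θ : F} (hθ : θ ≠ 0) (A : Finset F) (h0 : (0 : F) ∉ A)
    (hA : ∀ x ∈ A, θ * x ∈ A) (r : ℝ) (hr : (Fintype.card F : ℝ) - 1 ≤ r * orderOf θ) :
    ∑ χ : MulChar F ℂ, ‖cf A χ‖ ≤
      Real.sqrt (r * ((A.card : ℝ) / ((Fintype.card F : ℝ) - 1))) := by
  classical
  have hn := orderOf_pos' hθ
  have hnR : (0 : ℝ) < orderOf θ := by exact_mod_cast hn
  set S := univ.filter fun χ : MulChar F ℂ => χ θ = 1 with hS
  have hcard : (S.card : ℝ) ≤ r := by
    have h1 := count_char hθ 1 (one_pow _)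
    rw [← h1, mul_comm r] at hr
    exact le_of_mul_le_mul_left hr hnR
  have h1 : ∑ χ : MulChar F ℂ, ‖cf A χ‖ = ∑ χ ∈ S, ‖cf A χ‖ := by
    symm
    apply sum_subset (subset_univ _)
    intro χ _ hχ
    rw [cf_eq_zero hθ A hA χ (fun h => hχ (by rw [hS]; exact mem_filter.2 ⟨mem_univ _, h⟩)),
      norm_zero]
  rw [h1]
  apply Real.le_sqrt_of_sq_le
  calc (∑ χ ∈ S, ‖cf A χ‖) ^ 2 ≤ S.card * ∑ χ ∈ S, ‖cf A χ‖ ^ 2 := sq_sum_le_card_mul_sum_sq
    _ ≤ r * ∑ χ : MulChar F ℂ, ‖cf A χ‖ ^ 2 := by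
        refine mul_le_mul hcard ?_ (sum_nonneg fun _ _ => by positivity)
          ((Nat.cast_nonneg _).trans hcard)
        exact sum_le_sum_of_subset_of_nonneg (subset_univ _) fun _ _ _ => by positivity
    _ = _ := by rw [parseval A h0]

/-- the bound for the geometric sums -/
theorem geom_bound (n a L : ℕ) (ha0 : 0 < a) (han : a < n) :
    ‖∑ j ∈ range L, (Complex.exp (2 * Real.pi * Complex.I / n) ^ a) ^ j‖ ≤
      (n : ℝ) / 2 * (1 / a + 1 / (n - a)) := by
  have hnR : (0 : ℝ) < n := by exact_mod_cast (by omega : 0 < n)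
  have haR : (0 : ℝ) < a := by exact_mod_cast ha0
  have hanR : (a : ℝ) < n := by exact_mod_cast han
  set z := Complex.exp (2 * Real.pi * Complex.I / n) ^ a with hz
  have hz1 : z = Complex.exp (2 * (Real.pi * a / n : ℝ) * Complex.I) := by
    rw [hz, ← Complex.exp_nat_mul]
    congr 1
    push_cast
    ring
  set x : ℝ := Real.pi * a / n with hx
  have hxpos : 0 < x := by positivity
  have hxpi : x < Real.pi := by
    rw [hx, div_lt_iff₀ hnR]
    exact mul_lt_mul_of_pos_left hanR Real.pi_pos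
  have hsin : 0 < Real.sin x := Real.sin_pos_of_pos_of_lt_pi hxpos hxpi
  have hnorm : ‖z - 1‖ = 2 * Real.sin x := by
    have h1 : z - 1 = Complex.exp (x * Complex.I) * (2 * Complex.I * Complex.sin x) := by
      have h2 : z = Complex.exp (x * Complex.I) * Complex.exp (x * Complex.I) := by
        rw [hz1, ← Complex.exp_add]
        congr 1
        ring
      have h3 : (1 : ℂ) = Complex.exp (x * Complex.I) * Complex.exp (-(x * Complex.I)) := by
        rw [← Complex.exp_add, add_neg_cancel, Complex.exp_zero]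
      rw [h2]
      conv_lhs => rw [h3]
      rw [← mul_sub]
      congr 1
      rw [Complex.sin]
      have : Complex.I * Complex.I = -1 := Complex.I_mul_I
      rw [show (2 * Complex.I * ((Complex.exp (-x * Complex.I) - Complex.exp (x * Complex.I)) *
        Complex.I / 2)) = (Complex.I * Complex.I) * (Complex.exp (-x * Complex.I) -
          Complex.exp (x * Complex.I)) by ring, this, neg_mul]
      ring
    rw [h1, norm_mul, norm_mul, norm_mul, Complex.norm_exp_ofReal_mul_I, Complex.norm_I,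
      ← Complex.ofReal_sin, Complex.norm_real, Real.norm_of_nonneg hsin.le]
    norm_num
  have hzne : z ≠ 1 := by
    intro h
    rw [h, sub_self, norm_zero] at hnorm
    linarith
  have hzn : ‖z‖ = 1 := by
    rw [hz1, show (2 * (x : ℂ) * Complex.I) = ((2 * x : ℝ) : ℂ) * Complex.I by push_cast; ring,
      Complex.norm_exp_ofReal_mul_I]
  rw [geom_sum_eq hzne, norm_div, hnorm]
  have h1 : ‖z ^ L - 1‖ ≤ 2 := by
    calc ‖z ^ L - 1‖ ≤ ‖z ^ L‖ + ‖(1 : ℂ)‖ := norm_sub_le _ _
      _ = 2 := by rw [norm_pow, hzn, one_pow, norm_one]; norm_num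
  -- the lower bound for the sine
  have hna : (0 : ℝ) < n - a := by linarith
  have hs : 1 / Real.sin x ≤ (n : ℝ) / 2 * (1 / a + 1 / (n - a)) := by
    rcases le_total x (Real.pi / 2) with hle | hle
    · have h2 := Real.mul_le_sin hxpos.le hle
      have h3 : 2 / Real.pi * x = 2 * a / n := by
        rw [hx]
        field_simp
      rw [h3] at h2
      calc 1 / Real.sin x ≤ 1 / (2 * a / n) := one_div_le_one_div_of_le (by positivity) h2
        _ = (n : ℝ) / 2 * (1 / a) := by field_simp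
        _ ≤ _ := by
          apply mul_le_mul_of_nonneg_left _ (by positivity)
          have : 0 < 1 / ((n : ℝ) - a) := by positivity
          linarith
    · have h2 := Real.mul_le_sin (x := Real.pi - x) (by linarith) (by linarith)
      rw [Real.sin_pi_sub] at h2
      have h3 : 2 / Real.pi * (Real.pi - x) = 2 * (n - a) / n := by
        rw [hx]
        field_simp
      rw [h3] at h2
      calc 1 / Real.sin x ≤ 1 / (2 * (n - a) / n) := one_div_le_one_div_of_le (by positivity) h2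
        _ = (n : ℝ) / 2 * (1 / (n - a)) := by field_simp
        _ ≤ _ := by
          apply mul_le_mul_of_nonneg_left _ (by positivity)
          have : 0 < 1 / (a : ℝ) := by positivity
          linarith
  calc ‖z ^ L - 1‖ / (2 * Real.sin x) ≤ 2 / (2 * Real.sin x) := by
        apply div_le_div_of_nonneg_right h1 (by positivity)
    _ = 1 / Real.sin x := by field_simp
    _ ≤ _ := hs

/-- the sum of the geometric sums over all roots of unity -/
theorem sum_geom_bound (n L : ℕ) (hn : 0 < n) (hL : L ≤ n) :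
    ∑ a ∈ range n, ‖∑ j ∈ range L, (Complex.exp (2 * Real.pi * Complex.I / n) ^ a) ^ j‖ ≤
      n * (2 + Real.log n) := by
  obtain ⟨N, rfl⟩ : ∃ N, n = N + 1 := ⟨n - 1, by omega⟩
  rw [sum_range_succ']
  have h0 : ‖∑ j ∈ range L, (Complex.exp (2 * Real.pi * Complex.I / ((N + 1 : ℕ) : ℂ)) ^ 0) ^ j‖ ≤
      ((N + 1 : ℕ) : ℝ) := by
    simp only [pow_zero, one_pow, sum_const, card_range, nsmul_eq_mul, mul_one]
    rw [Complex.norm_natCast]
    exact_mod_cast hL
  have h1 : ∑ a ∈ range N, ‖∑ j ∈ range L,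
      (Complex.exp (2 * Real.pi * Complex.I / ((N + 1 : ℕ) : ℂ)) ^ (a + 1)) ^ j‖ ≤
      ∑ a ∈ range N, ((N + 1 : ℕ) : ℝ) / 2 * (1 / ((a : ℝ) + 1) + 1 / ((N : ℝ) - a)) := by
    refine sum_le_sum fun a ha => ?_
    rw [mem_range] at ha
    refine (geom_bound (N + 1) (a + 1) L (by omega) (by omega)).trans (le_of_eq ?_)
    push_cast
    congr 2
    congr 1
    ring
  have h2 : ∑ a ∈ range N, (1 / ((N : ℝ) - a)) = ∑ a ∈ range N, (1 / ((a : ℝ) + 1)) := by
    rw [← sum_range_reflect]
    refine sum_congr rfl fun a ha => ?_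
    rw [mem_range] at ha
    congr 1
    rw [Nat.cast_sub (by omega), Nat.cast_sub (by omega)]
    push_cast
    ring
  have h3 : ∑ a ∈ range N, (1 / ((a : ℝ) + 1)) ≤ 1 + Real.log (N + 1 : ℕ) := by
    have h4 := harmonic_le_one_add_log N
    have h5 : ((harmonic N : ℚ) : ℝ) = ∑ a ∈ range N, (1 / ((a : ℝ) + 1)) := by
      unfold harmonic
      push_cast
      refine sum_congr rfl fun a _ => ?_
      rw [one_div]
    rw [← h5]
    refine h4.trans ?_
    rcases Nat.eq_zero_or_pos N with h6 | h6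
    · subst h6; simp
    · have : Real.log N ≤ Real.log (N + 1 : ℕ) :=
        Real.log_le_log (by exact_mod_cast h6) (by push_cast; linarith)
      linarith
  rw [← mul_sum, sum_add_distrib, h2] at h1
  have h4 : (0 : ℝ) ≤ ((N + 1 : ℕ) : ℝ) := Nat.cast_nonneg _
  nlinarith

/-- the coefficients of a geometric progression -/
theorem sum_cf_gp {θ v : F} (hθ : θ ≠ 0) (hv : v ≠ 0) (L : ℕ) :
    ∑ χ : MulChar F ℂ, ‖cf ((range L).image fun j => v * θ ^ j) χ‖ ≤
      2 + Real.log (Fintype.card F) := by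
  classical
  have hn := orderOf_pos' hθ
  obtain ⟨n, hndef⟩ : ∃ n, n = orderOf θ := ⟨_, rfl⟩
  have hn' : 0 < n := hndef ▸ hn
  have hnR : (0 : ℝ) < n := by exact_mod_cast hn'
  -- wlog `L ≤ n`
  obtain ⟨L', hL', himg⟩ : ∃ L', L' ≤ n ∧ ((range L).image fun j => v * θ ^ j) =
      (range L').image fun j => v * θ ^ j := by
    rcases le_total L n with h | h
    · exact ⟨L, h, rfl⟩
    · refine ⟨n, le_rfl, ?_⟩
      ext x
      constructor
      · intro hx
        obtain ⟨j, _, rfl⟩ := mem_image.1 hx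
        refine mem_image.2 ⟨j % n, mem_range.2 (Nat.mod_lt _ hn'), ?_⟩
        rw [hndef, pow_mod_orderOf]
      · intro hx
        obtain ⟨j, hj, rfl⟩ := mem_image.1 hx
        exact mem_image.2 ⟨j, mem_range.2 (lt_of_lt_of_le (mem_range.1 hj) h), rfl⟩
  rw [himg]
  have hnz : NeZero n := ⟨hn'.ne'⟩
  set ζ := Complex.exp (2 * Real.pi * Complex.I / n) with hζ
  have hprim : IsPrimitiveRoot ζ n := Complex.isPrimitiveRoot_exp n hn'.ne'
  have hinj : Set.InjOn (fun j => v * θ ^ j) (range L' : Set ℕ) := by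
    intro i hi j hj hij
    have hi' := mem_range.1 (mem_coe.1 hi)
    have hj' := mem_range.1 (mem_coe.1 hj)
    have h1 : θ ^ i = θ ^ j := mul_left_cancel₀ hv hij
    exact pow_injOn_Iio_orderOf (by rw [← hndef]; exact lt_of_lt_of_le hi' hL')
      (by rw [← hndef]; exact lt_of_lt_of_le hj' hL') h1
  -- the value of the coefficients
  have hval : ∀ χ : MulChar F ℂ, ‖cf ((range L').image fun j => v * θ ^ j) χ‖ =
      ‖∑ j ∈ range L', (χ θ⁻¹) ^ j‖ / ((Fintype.card F : ℝ) - 1) := by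
    intro χ
    unfold cf
    rw [sum_image hinj, norm_div]
    congr 1
    · have h1 : ∀ j ∈ range L', χ (v * θ ^ j)⁻¹ = χ v⁻¹ * (χ θ⁻¹) ^ j := by
        intro j _
        rw [mul_inv, map_mul, ← inv_pow, map_pow]
      rw [sum_congr rfl h1, ← mul_sum, norm_mul, norm_char (inv_ne_zero hv), one_mul]
    · rw [show ((Fintype.card F : ℂ) - 1) = (((Fintype.card F : ℝ) - 1 : ℝ) : ℂ) by push_cast; ring,
        Complex.norm_real, Real.norm_of_nonneg qm1_pos.le]
  simp_rw [hval]
  rw [← sum_div]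
  have hθ' : θ⁻¹ ≠ 0 := inv_ne_zero hθ
  have hord : orderOf θ⁻¹ = n := by
    rw [hndef]
    have h1 : ∀ j, (θ⁻¹) ^ j = 1 ↔ θ ^ j = 1 := by
      intro j
      rw [inv_pow, inv_eq_one]
    exact orderOf_eq_orderOf_iff.2 h1
  -- grouping by the value at `θ⁻¹`
  have hgroup : ∑ χ : MulChar F ℂ, ‖∑ j ∈ range L', (χ θ⁻¹) ^ j‖ =
      ∑ a ∈ range n, ((univ.filter fun χ : MulChar F ℂ => χ θ⁻¹ = ζ ^ a).card : ℝ) *
        ‖∑ j ∈ range L', (ζ ^ a) ^ j‖ := by
    have h1 : ∀ χ : MulChar F ℂ, ‖∑ j ∈ range L', (χ θ⁻¹) ^ j‖ =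
        ∑ a ∈ range n, if χ θ⁻¹ = ζ ^ a then ‖∑ j ∈ range L', (ζ ^ a) ^ j‖ else 0 := by
      intro χ
      have h2 : (χ θ⁻¹) ^ n = 1 := by rw [← map_pow, ← hord, pow_orderOf_eq_one, map_one]
      obtain ⟨a, han, ha⟩ := hprim.eq_pow_of_pow_eq_one h2
      symm
      rw [sum_eq_single a]
      · rw [if_pos ha.symm, ha]
      · intro b hb hba
        rw [if_neg]
        intro h3
        apply hba
        exact hprim.pow_inj (mem_range.1 hb) han (by rw [← h3, ha])
      · intro h3
        exact absurd (mem_range.2 han) h3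
    rw [sum_congr rfl fun χ _ => h1 χ, sum_comm]
    refine sum_congr rfl fun a _ => ?_
    rw [← sum_filter, sum_const, nsmul_eq_mul]
  have hcount : ∀ a ∈ range n, ((univ.filter fun χ : MulChar F ℂ => χ θ⁻¹ = ζ ^ a).card : ℝ) =
      ((Fintype.card F : ℝ) - 1) / n := by
    intro a _
    have h1 := count_char hθ' (ζ ^ a) (by
      rw [hord, ← pow_mul, mul_comm a n, pow_mul, hprim.pow_eq_one, one_pow])
    rw [hord] at h1
    rw [eq_div_iff hnR.ne', mul_comm]
    exact h1
  rw [hgroup, sum_congr rfl fun a ha => by rw [hcount a ha], ← mul_sum]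
  have hb := sum_geom_bound n L' hn' hL'
  have hq1 := qm1_pos (F := F)
  have hlog : Real.log n ≤ Real.log (Fintype.card F) := by
    apply Real.log_le_log hnR
    have h1 : orderOf θ ≤ Fintype.card F - 1 :=
      orderOf_le_of_pow_eq_one (by have : 1 < Fintype.card F := Fintype.one_lt_card; omega)
        (FiniteField.pow_card_sub_one_eq_one θ hθ)
    have h2 : n ≤ Fintype.card F := by rw [hndef]; omega
    exact_mod_cast h2
  rw [div_le_iff₀ hq1]
  calc ((Fintype.card F : ℝ) - 1) / n * ∑ a ∈ range n, ‖∑ j ∈ range L', (ζ ^ a) ^ j‖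
      ≤ ((Fintype.card F : ℝ) - 1) / n * (n * (2 + Real.log n)) :=
        mul_le_mul_of_nonneg_left hb (by positivity)
    _ = (2 + Real.log n) * ((Fintype.card F : ℝ) - 1) := by field_simp
    _ ≤ _ := by
        apply mul_le_mul_of_nonneg_right _ hq1.le
        linarith

end Pool.Agent.T6.H29.OR
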