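import Pool.Agent.T6.H29.OR.Fld

/-!
# Linear maps `S` with `(S - 1) π(S) = 0`, `π` irreducible
-/

set_option autoImplicit false
set_option linter.unusedSectionVars false
set_option linter.unusedVariables false

namespace Pool.Agent.T6.H29.OR

open Finset Polynomial

section

variable {p : ℕ} [hp : Fact p.Prime] {V : Type} [AddCommGroup V] [Module (ZMod p) V]

/-- the projection to the fixed vectors -/
noncomputable def e0 (S : Module.End (ZMod p) V) (π : (ZMod p)[X]) : Module.End (ZMod p) V :=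
  (π.eval 1)⁻¹ • aeval S π

/-- `f(S)` on the complement of the fixed vectors -/
noncomputable def EE (S : Module.End (ZMod p) V) (π f : (ZMod p)[X]) : Module.End (ZMod p) V :=
  aeval S f * (1 - e0 S π)

variable {S : Module.End (ZMod p) V} {π : (ZMod p)[X]}

theorem aeval_mul_pi (hS : aeval S ((X - 1) * π) = 0) (f : (ZMod p)[X]) :
    aeval S f * aeval S π = (f.eval 1) • aeval S π := by
  obtain ⟨g, hg⟩ : (X - C 1 : (ZMod p)[X]) ∣ f - C (f.eval 1) := by
    rw [dvd_iff_isRoot]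
    simp
  have h1 : f * π = g * ((X - 1) * π) + C (f.eval 1) * π := by
    have : f = (X - C 1) * g + C (f.eval 1) := by rw [← hg]; ring
    conv_lhs => rw [this]
    rw [C_1]
    ring
  rw [← map_mul, h1, map_add, map_mul, hS, mul_zero, zero_add, map_mul, aeval_C,
    Algebra.algebraMap_eq_smul_one, smul_mul_assoc, one_mul]

theorem aeval_mul_e0 (hS : aeval S ((X - 1) * π) = 0) (f : (ZMod p)[X]) :
    aeval S f * e0 S π = (f.eval 1) • e0 S π := by
  unfold e0
  rw [mul_smul_comm, aeval_mul_pi hS, smul_comm]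

theorem e0_comm (f : (ZMod p)[X]) : e0 S π * aeval S f = aeval S f * e0 S π := by
  unfold e0
  rw [smul_mul_assoc, mul_smul_comm, ← map_mul, ← map_mul, mul_comm]

theorem e0_idem (hS : aeval S ((X - 1) * π) = 0) (h1 : π.eval 1 ≠ 0) :
    e0 S π * e0 S π = e0 S π := by
  calc e0 S π * e0 S π = (π.eval 1)⁻¹ • (aeval S π * e0 S π) := by
        rw [← smul_mul_assoc]
        rfl
    _ = e0 S π := by rw [aeval_mul_e0 hS, smul_smul, inv_mul_cancel₀ h1, one_smul]

theorem e1_idem (hS : aeval S ((X - 1) * π) = 0) (h1 : π.eval 1 ≠ 0) :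
    (1 - e0 S π) * (1 - e0 S π) = 1 - e0 S π := by
  have := e0_idem hS h1
  rw [mul_sub, sub_mul, sub_mul, this]
  simp

theorem EE_add (f g : (ZMod p)[X]) : EE S π (f + g) = EE S π f + EE S π g := by
  unfold EE
  rw [map_add, add_mul]

theorem EE_one : EE S π 1 = 1 - e0 S π := by
  unfold EE
  rw [map_one, one_mul]

theorem e1_comm (f : (ZMod p)[X]) : (1 - e0 S π) * aeval S f = aeval S f * (1 - e0 S π) := by
  rw [sub_mul, mul_sub, e0_comm, one_mul, mul_one]

theorem EE_mul (hS : aeval S ((X - 1) * π) = 0) (h1 : π.eval 1 ≠ 0) (f g : (ZMod p)[X]) :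
    EE S π (f * g) = EE S π f * EE S π g := by
  unfold EE
  rw [map_mul, mul_assoc (aeval S f) (1 - e0 S π), ← mul_assoc (1 - e0 S π), e1_comm,
    mul_assoc (aeval S g), e1_idem hS h1, mul_assoc]

theorem EE_pi (hS : aeval S ((X - 1) * π) = 0) (h1 : π.eval 1 ≠ 0) : EE S π π = 0 := by
  unfold EE
  rw [mul_sub, mul_one, aeval_mul_e0 hS]
  unfold e0
  rw [smul_smul, mul_inv_cancel₀ h1, one_smul, sub_self]

theorem EE_dvd (hS : aeval S ((X - 1) * π) = 0) (h1 : π.eval 1 ≠ 0) {f : (ZMod p)[X]}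
    (h : π ∣ f) : EE S π f = 0 := by
  obtain ⟨g, rfl⟩ := h
  rw [EE_mul hS h1, EE_pi hS h1, zero_mul]

theorem EE_e0 (hS : aeval S ((X - 1) * π) = 0) (h1 : π.eval 1 ≠ 0) (f : (ZMod p)[X]) :
    EE S π f * e0 S π = 0 := by
  unfold EE
  rw [mul_assoc, sub_mul, e0_idem hS h1, one_mul, sub_self, mul_zero]

theorem e0_EE (hS : aeval S ((X - 1) * π) = 0) (h1 : π.eval 1 ≠ 0) (f : (ZMod p)[X]) :
    e0 S π * EE S π f = 0 := by
  unfold EE
  rw [← mul_assoc, e0_comm, mul_assoc, mul_sub, e0_idem hS h1, mul_one, sub_self, mul_zero]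

theorem S_EE (hS : aeval S ((X - 1) * π) = 0) (h1 : π.eval 1 ≠ 0) (f : (ZMod p)[X]) :
    S * EE S π f = EE S π (X * f) := by
  unfold EE
  rw [map_mul, aeval_X, mul_assoc]

theorem S_e0 (hS : aeval S ((X - 1) * π) = 0) : S * e0 S π = e0 S π := by
  have := aeval_mul_e0 hS X
  rwa [aeval_X, eval_X, one_smul] at this

theorem pow_eq (hS : aeval S ((X - 1) * π) = 0) (h1 : π.eval 1 ≠ 0) (j : ℕ) :
    S ^ j = e0 S π + EE S π (X ^ j) := by
  have h2 : S ^ j * e0 S π = e0 S π := by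
    have := aeval_mul_e0 hS (X ^ j)
    rwa [map_pow, aeval_X, eval_pow, eval_X, one_pow, one_smul] at this
  unfold EE
  rw [map_pow, aeval_X, mul_sub, mul_one, h2]
  abel

/-- non-vanishing -/
theorem dvd_of_EE (hπ : Irreducible π) (hS : aeval S ((X - 1) * π) = 0) (h1 : π.eval 1 ≠ 0)
    {f : (ZMod p)[X]} {w : V} (hw : (1 - e0 S π) w ≠ 0) (h : EE S π f w = 0) : π ∣ f := by
  by_contra hnd
  obtain ⟨a, b, hab⟩ := (hπ.coprime_iff_not_dvd).2 hnd
  apply hw
  rw [← EE_one, ← hab, EE_add, EE_dvd hS h1 (Dvd.intro_left a rfl), zero_add, EE_mul hS h1,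
    Module.End.mul_apply, h, map_zero]

/-- the action of the field -/
noncomputable def act (S : Module.End (ZMod p) V) (π : (ZMod p)[X]) (u : AdjoinRoot π) :
    Module.End (ZMod p) V :=
  EE S π (Function.surjInv AdjoinRoot.mk_surjective u)

theorem act_mk (hS : aeval S ((X - 1) * π) = 0) (h1 : π.eval 1 ≠ 0) (f : (ZMod p)[X]) :
    act S π (AdjoinRoot.mk π f) = EE S π f := by
  unfold act
  set g := Function.surjInv AdjoinRoot.mk_surjective (AdjoinRoot.mk π f) with hg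
  have h2 : AdjoinRoot.mk π g = AdjoinRoot.mk π f := Function.surjInv_eq _ _
  have h3 : π ∣ g - f := AdjoinRoot.mk_eq_mk.1 h2
  have h4 : g = f + (g - f) := by ring
  rw [h4, EE_add, EE_dvd hS h1 h3, add_zero]

theorem act_add (hS : aeval S ((X - 1) * π) = 0) (h1 : π.eval 1 ≠ 0) (u v : AdjoinRoot π) :
    act S π (u + v) = act S π u + act S π v := by
  obtain ⟨f, rfl⟩ := AdjoinRoot.mk_surjective u
  obtain ⟨g, rfl⟩ := AdjoinRoot.mk_surjective v
  rw [← map_add, act_mk hS h1, act_mk hS h1, act_mk hS h1, EE_add]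

theorem act_mul (hS : aeval S ((X - 1) * π) = 0) (h1 : π.eval 1 ≠ 0) (u v : AdjoinRoot π) :
    act S π (u * v) = act S π u * act S π v := by
  obtain ⟨f, rfl⟩ := AdjoinRoot.mk_surjective u
  obtain ⟨g, rfl⟩ := AdjoinRoot.mk_surjective v
  rw [← map_mul, act_mk hS h1, act_mk hS h1, act_mk hS h1, EE_mul hS h1]

theorem act_one (hS : aeval S ((X - 1) * π) = 0) (h1 : π.eval 1 ≠ 0) :
    act S π 1 = 1 - e0 S π := by
  rw [← map_one (AdjoinRoot.mk π), act_mk hS h1, EE_one]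

theorem act_natCast_mul (hS : aeval S ((X - 1) * π) = 0) (h1 : π.eval 1 ≠ 0) (i : ℕ)
    (u : AdjoinRoot π) (w : V) : act S π ((i : AdjoinRoot π) * u) w = i • act S π u w := by
  induction i with
  | zero =>
    rw [Nat.cast_zero, zero_mul, zero_smul]
    have : act S π (0 : AdjoinRoot π) = 0 := by
      rw [← map_zero (AdjoinRoot.mk π), act_mk hS h1]
      unfold EE
      rw [map_zero, zero_mul]
    rw [this]
    rfl
  | succ i ih =>
    rw [Nat.cast_succ, add_mul, one_mul, act_add hS h1, LinearMap.add_apply, ih, succ_nsmul]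

theorem act_ne_zero (hπ : Irreducible π) (hS : aeval S ((X - 1) * π) = 0) (h1 : π.eval 1 ≠ 0)
    {u : AdjoinRoot π} (hu : u ≠ 0) {w : V} (hw : (1 - e0 S π) w ≠ 0) : act S π u w ≠ 0 := by
  obtain ⟨f, rfl⟩ := AdjoinRoot.mk_surjective u
  rw [act_mk hS h1]
  intro h
  exact hu (AdjoinRoot.mk_eq_zero.2 (dvd_of_EE hπ hS h1 hw h))

theorem e0_act (hS : aeval S ((X - 1) * π) = 0) (h1 : π.eval 1 ≠ 0) (u : AdjoinRoot π) :
    e0 S π * act S π u = 0 := e0_EE hS h1 _

theorem act_e0 (hS : aeval S ((X - 1) * π) = 0) (h1 : π.eval 1 ≠ 0) (u : AdjoinRoot π) :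
    act S π u * e0 S π = 0 := EE_e0 hS h1 _

theorem S_act (hS : aeval S ((X - 1) * π) = 0) (h1 : π.eval 1 ≠ 0) (u : AdjoinRoot π) :
    S * act S π u = act S π (AdjoinRoot.root π * u) := by
  obtain ⟨f, rfl⟩ := AdjoinRoot.mk_surjective u
  rw [act_mk hS h1, S_EE hS h1, ← AdjoinRoot.mk_X, ← map_mul, act_mk hS h1]

theorem pow_eq' (hS : aeval S ((X - 1) * π) = 0) (h1 : π.eval 1 ≠ 0) (j : ℕ) :
    S ^ j = e0 S π + act S π (AdjoinRoot.root π ^ j) := by
  rw [pow_eq hS h1, ← AdjoinRoot.mk_X, ← map_pow, act_mk hS h1]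

theorem root_ne_zero (hπ : Irreducible π) (hS : aeval S ((X - 1) * π) = 0) (h1 : π.eval 1 ≠ 0)
    (hinj : Function.Injective S) {w : V} (hw : (1 - e0 S π) w ≠ 0) :
    AdjoinRoot.root π ≠ 0 := by
  intro h0
  have h2 := S_act hS h1 (1 : AdjoinRoot π)
  rw [h0, zero_mul] at h2
  have h3 : act S π (0 : AdjoinRoot π) = 0 := by
    rw [← map_zero (AdjoinRoot.mk π), act_mk hS h1]
    unfold EE
    rw [map_zero, zero_mul]
  rw [h3, act_one hS h1] at h2
  have h4 : S ((1 - e0 S π) w) = 0 := by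
    have := congrArg (fun T : Module.End (ZMod p) V => T w) h2
    simpa using this
  apply hw
  apply hinj
  rw [h4, map_zero]

end

end Pool.Agent.T6.H29.OR
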