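import Pool.Agent.T6.H29.OR.Lin

/-!
# From finite fields to linear maps
-/

set_option autoImplicit false
set_option linter.unusedSectionVars false
set_option linter.unusedVariables false

namespace Pool.Agent.T6.H29.OR

open Finset Polynomial

variable {p : ℕ} [hp : Fact p.Prime]

section field

variable (π : (ZMod p)[X]) [hπf : Fact (Irreducible π)]

theorem finite_K : Finite (AdjoinRoot π) := by
  have h : Module.Finite (ZMod p) (AdjoinRoot π) :=
    (AdjoinRoot.powerBasis hπf.out.ne_zero).finite
  exact Module.finite_of_finite (ZMod p)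

noncomputable instance instFK : Fintype (AdjoinRoot π) := @Fintype.ofFinite _ (finite_K π)

theorem card_K : Fintype.card (AdjoinRoot π) = p ^ π.natDegree := by
  have h : Module.Finite (ZMod p) (AdjoinRoot π) :=
    (AdjoinRoot.powerBasis hπf.out.ne_zero).finite
  rw [Module.card_eq_pow_finrank (K := ZMod p) (V := AdjoinRoot π), ZMod.card,
    (AdjoinRoot.powerBasis hπf.out.ne_zero).finrank, AdjoinRoot.powerBasis_dim]

theorem inj_K (k : ℕ) (hkp : k ≤ p) :
    Function.Injective (fun i : Fin k => ((i : ℕ) : AdjoinRoot π)) := by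
  have : CharP (AdjoinRoot π) p :=
    charP_of_injective_algebraMap (algebraMap (ZMod p) (AdjoinRoot π)).injective p
  intro i j hij
  have h := CharP.natCast_injOn_Iio (AdjoinRoot π) p (Set.mem_Iio.2 (lt_of_lt_of_le i.2 hkp))
    (Set.mem_Iio.2 (lt_of_lt_of_le j.2 hkp)) hij
  exact Fin.ext h

end field

section

variable {V : Type} [AddCommGroup V] [Module (ZMod p) V] [Fintype V] [DecidableEq V]
variable {S : Module.End (ZMod p) V} {π : (ZMod p)[X]}

theorem act_inj (hπ : Irreducible π) (hS : aeval S ((X - 1) * π) = 0) (h1 : π.eval 1 ≠ 0)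
    {w : V} (hw : (1 - e0 S π) w ≠ 0) : Function.Injective (fun u => act S π u w) := by
  intro u u' h
  by_contra hne
  have h2 : act S π (u - u') w ≠ 0 := act_ne_zero hπ hS h1 (sub_ne_zero.2 hne) hw
  apply h2
  have h3 : act S π u = act S π (u - u') + act S π u' := by
    rw [← act_add hS h1, sub_add_cancel]
  have h4 : act S π u w = act S π (u - u') w + act S π u' w := by rw [h3]; rfl
  have h5 : act S π u w = act S π u' w := h
  rw [h5] at h4
  exact left_eq_add.1 (by rw [add_comm]; exact h4)

/-- orbit segments -/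
theorem orbit_bound (k : ℕ) (hk : 3 ≤ k) (hkp : k ≤ p) (hπ : Irreducible π)
    (hS : aeval S ((X - 1) * π) = 0) (h1 : π.eval 1 ≠ 0) (hinj : Function.Injective S) (c v : V)
    (L : ℕ) (hfree : ∀ x y : V, (∀ i : ℕ, i < k → x + i • y ∈
      (range L).image fun j => c + (S ^ j) v) → y = 0) :
    (((range L).image fun j => c + (S ^ j) v).card : ℝ) ≤
      2 * k * (2 + Real.log (Fintype.card V)) *
        (Fintype.card V : ℝ) ^ (1 - 1 / (2 * (k : ℝ) - 2)) := by
  classical
  have hfact : Fact (Irreducible π) := ⟨hπ⟩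
  have hV1 : (1 : ℝ) ≤ Fintype.card V := by
    exact_mod_cast Fintype.card_pos_iff.2 ⟨(0 : V)⟩
  have hexp : (0 : ℝ) ≤ 1 - 1 / (2 * (k : ℝ) - 2) := by
    have h2 : (3 : ℝ) ≤ k := by exact_mod_cast hk
    rw [sub_nonneg, div_le_one (by linarith)]
    linarith
  by_cases hw : (1 - e0 S π) v = 0
  · -- the orbit is a point
    have h2 : ∀ j : ℕ, (S ^ j) v = v := by
      intro j
      have hv : e0 S π v = v := by
        have : v - e0 S π v = 0 := hw
        exact (sub_eq_zero.1 this).symm
      have h3 : (S ^ j * e0 S π) v = (S ^ j) v := by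
        rw [Module.End.mul_apply, hv]
      have h4 : S ^ j * e0 S π = e0 S π := by
        have := aeval_mul_e0 hS (X ^ j)
        rwa [map_pow, aeval_X, eval_pow, eval_X, one_pow, one_smul] at this
      rw [← h3, h4, hv]
    have h3 : ((range L).image fun j => c + (S ^ j) v).card ≤ 1 := by
      rw [card_le_one]
      intro x hx y hy
      obtain ⟨i, _, rfl⟩ := mem_image.1 hx
      obtain ⟨j, _, rfl⟩ := mem_image.1 hy
      rw [h2, h2]
    have h4 : (((range L).image fun j => c + (S ^ j) v).card : ℝ) ≤ 1 := by exact_mod_cast h3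
    refine h4.trans ?_
    have h5 : (1 : ℝ) ≤ (Fintype.card V : ℝ) ^ (1 - 1 / (2 * (k : ℝ) - 2)) :=
      Real.one_le_rpow hV1 hexp
    have h6 : (1 : ℝ) ≤ 2 * k * (2 + Real.log (Fintype.card V)) := by
      have h7 := Real.log_nonneg hV1
      have h8 : (3 : ℝ) ≤ k := by exact_mod_cast hk
      nlinarith
    nlinarith
  · -- the orbit is a geometric progression
    set θ := AdjoinRoot.root π with hθdef
    have hθ : θ ≠ 0 := root_ne_zero hπ hS h1 hinj hw
    have hjw := act_inj hπ hS h1 hw
    set G : Finset (AdjoinRoot π) := (range L).image fun j => 1 * θ ^ j with hG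
    have hmap : ∀ u, c + e0 S π v + act S π u v ∈ (range L).image (fun j => c + (S ^ j) v) ↔
        u ∈ G := by
      intro u
      rw [mem_image, hG, mem_image]
      constructor
      · rintro ⟨j, hj, h⟩
        refine ⟨j, hj, ?_⟩
        rw [pow_eq' hS h1, LinearMap.add_apply, ← add_assoc] at h
        have h2 := hjw (add_left_cancel h)
        rw [one_mul]
        exact h2
      · rintro ⟨j, hj, h⟩
        refine ⟨j, hj, ?_⟩
        rw [pow_eq' hS h1, LinearMap.add_apply, ← add_assoc]
        rw [one_mul] at h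
        rw [← hθdef, h]
    have hfreeK : ∀ x y : AdjoinRoot π, y ≠ 0 → ¬ ∀ i : Fin k,
        x + ((i : ℕ) : AdjoinRoot π) * y ∈ G := by
      intro x y hy hall
      have h2 := hfree (c + e0 S π v + act S π x v) (act S π y v) (fun i hi => by
        have h3 := (hmap _).2 (hall ⟨i, hi⟩)
        rw [act_add hS h1, LinearMap.add_apply, ← add_assoc] at h3
        simp only at h3
        rw [act_natCast_mul hS h1] at h3
        exact h3)
      exact act_ne_zero hπ hS h1 hy hw h2
    have hb := field_gp k hk (fun i : Fin k => ((i : ℕ) : AdjoinRoot π)) (inj_K π k hkp) hθ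
      one_ne_zero L hfreeK
    have hcard : ((range L).image fun j => c + (S ^ j) v).card ≤ G.card := by
      have h2 : (range L).image (fun j => c + (S ^ j) v) ⊆
          G.image (fun u => c + e0 S π v + act S π u v) := by
        intro x hx
        obtain ⟨j, hj, rfl⟩ := mem_image.1 hx
        refine mem_image.2 ⟨θ ^ j, ?_, ?_⟩
        · rw [hG]
          exact mem_image.2 ⟨j, hj, by rw [one_mul]⟩
        · rw [pow_eq' hS h1, LinearMap.add_apply, ← add_assoc]
      exact (card_le_card h2).trans card_image_le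
    have hKV : (Fintype.card (AdjoinRoot π) : ℝ) ≤ Fintype.card V := by
      exact_mod_cast Fintype.card_le_of_injective _ hjw
    have hK1 : (1 : ℝ) ≤ Fintype.card (AdjoinRoot π) := by
      exact_mod_cast Fintype.card_pos_iff.2 ⟨(0 : AdjoinRoot π)⟩
    calc (((range L).image fun j => c + (S ^ j) v).card : ℝ) ≤ G.card := by exact_mod_cast hcard
      _ ≤ _ := hb
      _ ≤ _ := by
        have h2 := Real.log_le_log (by linarith) hKV
        have h3 := Real.rpow_le_rpow (by linarith) hKV hexp
        have h4 := Real.log_nonneg hK1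
        apply mul_le_mul _ h3 (by positivity) (by positivity)
        apply mul_le_mul_of_nonneg_left _ (by positivity)
        linarith

/-- the map `e0 + act u` -/
noncomputable def Psi (S : Module.End (ZMod p) V) (π : (ZMod p)[X]) (u : AdjoinRoot π) (x : V) : V :=
  e0 S π x + act S π u x

theorem e0_apply_e0 (hS : aeval S ((X - 1) * π) = 0) (h1 : π.eval 1 ≠ 0) (x : V) :
    e0 S π (e0 S π x) = e0 S π x := by
  rw [← Module.End.mul_apply, e0_idem hS h1]

theorem e0_apply_act (hS : aeval S ((X - 1) * π) = 0) (h1 : π.eval 1 ≠ 0) (u : AdjoinRoot π)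
    (x : V) : e0 S π (act S π u x) = 0 := by
  rw [← Module.End.mul_apply, e0_act hS h1]
  rfl

theorem act_apply_e0 (hS : aeval S ((X - 1) * π) = 0) (h1 : π.eval 1 ≠ 0) (u : AdjoinRoot π)
    (x : V) : act S π u (e0 S π x) = 0 := by
  rw [← Module.End.mul_apply, act_e0 hS h1]
  rfl

theorem Psi_Psi (hS : aeval S ((X - 1) * π) = 0) (h1 : π.eval 1 ≠ 0) (u u' : AdjoinRoot π)
    (x : V) : Psi S π u (Psi S π u' x) = Psi S π (u * u') x := by
  unfold Psi
  rw [map_add, map_add, e0_apply_e0 hS h1, e0_apply_act hS h1, act_apply_e0 hS h1, add_zero,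
    zero_add, act_mul hS h1, Module.End.mul_apply]

theorem Psi_one (hS : aeval S ((X - 1) * π) = 0) (h1 : π.eval 1 ≠ 0) (x : V) :
    Psi S π 1 x = x := by
  unfold Psi
  rw [act_one hS h1, LinearMap.sub_apply, Module.End.one_apply]
  abel

theorem S_Psi (hS : aeval S ((X - 1) * π) = 0) (h1 : π.eval 1 ≠ 0) (u : AdjoinRoot π) (x : V) :
    S (Psi S π u x) = Psi S π (AdjoinRoot.root π * u) x := by
  unfold Psi
  rw [map_add, ← Module.End.mul_apply, S_e0 hS, ← Module.End.mul_apply, S_act hS h1]

theorem e1_Psi (hπ : Irreducible π) (hS : aeval S ((X - 1) * π) = 0) (h1 : π.eval 1 ≠ 0)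
    {u : AdjoinRoot π} (hu : u ≠ 0) (x : V) (hx : (1 - e0 S π) x ≠ 0) :
    (1 - e0 S π) (Psi S π u x) ≠ 0 := by
  unfold Psi
  rw [LinearMap.sub_apply, Module.End.one_apply, map_add, e0_apply_e0 hS h1,
    e0_apply_act hS h1, add_zero, add_sub_cancel_left]
  exact act_ne_zero hπ hS h1 hu hx

/-- sets invariant under `S` -/
theorem inv_bound (k : ℕ) (hk : 3 ≤ k) (hkp : k ≤ p) (hπ : Irreducible π)
    (hS : aeval S ((X - 1) * π) = 0) (h1 : π.eval 1 ≠ 0) (hinj : Function.Injective S)
    (hS1 : S ≠ 1) (r : ℝ) (hr : (p : ℝ) ^ π.natDegree - 1 ≤ r * orderOf S) (c : V) (B : Finset V)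
    (hB : ∀ x ∈ B, c + S (x - c) ∈ B)
    (hfree : ∀ x y : V, (∀ i : ℕ, i < k → x + i • y ∈ B) → y = 0) :
    (B.card : ℝ) ≤ (4 * k + 1) * r ^ (((k : ℝ) - 2) / k) * (Fintype.card V : ℝ) *
      ((p : ℝ) ^ π.natDegree) ^ (-(1 / (k : ℝ))) := by
  classical
  have hfact : Fact (Irreducible π) := ⟨hπ⟩
  -- a vector that is not fixed
  obtain ⟨w, hw⟩ : ∃ w, (1 - e0 S π) w ≠ 0 := by
    by_contra hno
    push Not at hno
    apply hS1
    have h2 : (1 : Module.End (ZMod p) V) - e0 S π = 0 := LinearMap.ext hno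
    have h3 : e0 S π = 1 := (sub_eq_zero.1 h2).symm
    have h4 := S_e0 hS
    rwa [h3, mul_one] at h4
  set θ := AdjoinRoot.root π with hθdef
  have hθ : θ ≠ 0 := root_ne_zero hπ hS h1 hinj hw
  obtain ⟨K, hK⟩ : ∃ K : ℝ, K = (Fintype.card (AdjoinRoot π) : ℝ) := ⟨_, rfl⟩
  have hKp : (p : ℝ) ^ π.natDegree = K := by
    rw [hK, card_K π]
    push_cast
    rfl
  have hK2 : (2 : ℝ) ≤ K := by
    rw [hK]
    exact_mod_cast (Fintype.one_lt_card : 1 < Fintype.card (AdjoinRoot π))
  rw [hKp] at hr ⊢
  have hord0 : (0 : ℝ) ≤ orderOf S := Nat.cast_nonneg _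
  have hr0 : 0 < r := by
    by_contra h
    push Not at h
    nlinarith
  have hordle : (orderOf S : ℝ) ≤ orderOf θ := by
    have h2 : S ^ orderOf θ = 1 := by
      rw [pow_eq' hS h1, ← hθdef, pow_orderOf_eq_one, act_one hS h1]
      abel
    exact_mod_cast Nat.le_of_dvd (orderOf_pos' hθ) (orderOf_dvd_of_pow_eq_one h2)
  have hrθ : K - 1 ≤ r * orderOf θ := hr.trans (mul_le_mul_of_nonneg_left hordle hr0.le)
  have hr1 : 1 ≤ r := by
    have h2 : (orderOf θ : ℝ) ≤ K - 1 := by
      have h3 : orderOf θ ≤ Fintype.card (AdjoinRoot π) - 1 :=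
        orderOf_le_of_pow_eq_one (by
          have : 1 < Fintype.card (AdjoinRoot π) := Fintype.one_lt_card
          omega) (FiniteField.pow_card_sub_one_eq_one θ hθ)
      have h4 : orderOf θ + 1 ≤ Fintype.card (AdjoinRoot π) := by
        have : 1 < Fintype.card (AdjoinRoot π) := Fintype.one_lt_card
        omega
      have h5 : ((orderOf θ + 1 : ℕ) : ℝ) ≤ K := by rw [hK]; exact_mod_cast h4
      push_cast at h5
      linarith
    have h3 : (0 : ℝ) < orderOf θ := by exact_mod_cast orderOf_pos' hθ
    by_contra h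
    push Not at h
    nlinarith
  -- the set on every line
  obtain ⟨T, hT⟩ : ∃ T : ℝ, T = 2 * k * r ^ (((k : ℝ) - 2) / k) * K ^ (1 - 1 / (k : ℝ)) := ⟨_, rfl⟩
  set Ax : V → Finset (AdjoinRoot π) := fun x =>
    (univ.erase 0).filter fun u => c + Psi S π u x ∈ B with hAx
  have hAx0 : ∀ x, (0 : AdjoinRoot π) ∉ Ax x := by
    intro x h
    simp [hAx] at h
  have hline : ∀ x, (1 - e0 S π) x ≠ 0 → ((Ax x).card : ℝ) ≤ T := by
    intro x hx
    rw [hT, hK]
    refine field_inv k hk (fun i : Fin k => ((i : ℕ) : AdjoinRoot π)) (inj_K π k hkp) hθ (Ax x)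
      (hAx0 x) ?_ ?_ r (by rw [← hK]; exact hrθ)
    · intro u hu
      simp only [hAx, mem_filter, mem_erase, mem_univ, and_true] at hu ⊢
      refine ⟨mul_ne_zero hθ hu.1, ?_⟩
      have h2 := hB _ hu.2
      rwa [add_sub_cancel_left, S_Psi hS h1] at h2
    · intro x' y' hy' hall
      have h2 := hfree (c + Psi S π x' x) (act S π y' x) (fun i hi => by
        have h3 := hall ⟨i, hi⟩
        simp only [hAx, mem_filter] at h3
        have h4 := h3.2
        unfold Psi at h4 ⊢
        rw [act_add hS h1, LinearMap.add_apply, act_natCast_mul hS h1, ← add_assoc,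
          ← add_assoc] at h4
        rw [← add_assoc]
        exact h4)
      exact act_ne_zero hπ hS h1 hy' hx h2
  -- double counting
  set U : Finset V := univ.filter fun x => (1 - e0 S π) x ≠ 0 with hU
  set N : Finset V := U.filter fun z => c + z ∈ B with hN
  have hdc : ((K - 1) * N.card : ℝ) ≤ Fintype.card V * T := by
    have h2 : ∑ x ∈ U, (Ax x).card = ∑ u ∈ (univ.erase (0 : AdjoinRoot π)), N.card := by
      simp only [hAx, card_filter]
      rw [sum_comm]
      refine sum_congr rfl fun u hu => ?_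
      have hu0 : u ≠ 0 := (mem_erase.1 hu).1
      rw [← card_filter]
      refine card_bij' (fun x _ => Psi S π u x) (fun z _ => Psi S π u⁻¹ z) ?_ ?_ ?_ ?_
      · intro x hx
        rw [mem_filter, hU, mem_filter] at hx
        rw [hN, mem_filter, hU, mem_filter]
        exact ⟨⟨mem_univ _, e1_Psi hπ hS h1 hu0 x hx.1.2⟩, hx.2⟩
      · intro z hz
        rw [hN, mem_filter, hU, mem_filter] at hz
        rw [mem_filter, hU, mem_filter]
        refine ⟨⟨mem_univ _, e1_Psi hπ hS h1 (inv_ne_zero hu0) z hz.1.2⟩, ?_⟩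
        rw [Psi_Psi hS h1, mul_inv_cancel₀ hu0, Psi_one hS h1]
        exact hz.2
      · intro x _
        rw [Psi_Psi hS h1, inv_mul_cancel₀ hu0, Psi_one hS h1]
      · intro z _
        rw [Psi_Psi hS h1, mul_inv_cancel₀ hu0, Psi_one hS h1]
    rw [sum_const, smul_eq_mul, card_erase_of_mem (mem_univ _), card_univ] at h2
    have h3 : ((∑ x ∈ U, (Ax x).card : ℕ) : ℝ) ≤ Fintype.card V * T := by
      push_cast
      calc ∑ x ∈ U, ((Ax x).card : ℝ) ≤ ∑ x ∈ U, T := by
            refine sum_le_sum fun x hx => hline x ?_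
            rw [hU, mem_filter] at hx
            exact hx.2
        _ = U.card * T := by rw [sum_const, nsmul_eq_mul]
        _ ≤ Fintype.card V * T := by
            apply mul_le_mul_of_nonneg_right
            · exact_mod_cast card_le_univ U
            · rw [hT]; positivity
    rw [h2] at h3
    push_cast at h3
    rw [Nat.cast_sub (by have : 1 < Fintype.card (AdjoinRoot π) := Fintype.one_lt_card; omega),
      ← hK] at h3
    simpa using h3
  -- the fixed points
  set Fx : Finset V := univ.filter fun x => (1 - e0 S π) x = 0 with hFx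
  have hfix : (Fx.card * K : ℝ) ≤ Fintype.card V := by
    have h2 : (Fx ×ˢ (univ : Finset (AdjoinRoot π))).card ≤ (univ : Finset V).card := by
      refine card_le_card_of_injOn (fun q => q.1 + act S π q.2 w) (fun _ _ => mem_univ _) ?_
      rintro ⟨x, u⟩ hx ⟨x', u'⟩ hx' h
      simp only [coe_product, Set.mem_prod, mem_coe, hFx, mem_filter, mem_univ, true_and,
        coe_univ, Set.mem_univ, and_true] at hx hx'
      have hfx : ∀ z, (1 - e0 S π) z = 0 → e0 S π z = z := by
        intro z hz
        rw [LinearMap.sub_apply, Module.End.one_apply, sub_eq_zero] at hz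
        exact hz.symm
      have h3 := congrArg (e0 S π) h
      simp only [map_add] at h3
      rw [e0_apply_act hS h1, e0_apply_act hS h1, add_zero, add_zero, hfx x hx,
        hfx x' hx'] at h3
      subst h3
      have h4 : act S π u w = act S π u' w := add_left_cancel h
      rw [act_inj hπ hS h1 hw h4]
    rw [card_product, card_univ, card_univ] at h2
    rw [hK]
    exact_mod_cast h2
  have hBle : (B.card : ℝ) ≤ N.card + Fx.card := by
    have h2 : B ⊆ (N ∪ Fx).image (fun z => c + z) := by
      intro x hx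
      refine mem_image.2 ⟨x - c, ?_, by abel⟩
      rw [mem_union, hN, mem_filter, hU, mem_filter, hFx, mem_filter]
      by_cases h3 : (1 - e0 S π) (x - c) = 0
      · exact Or.inr ⟨mem_univ _, h3⟩
      · exact Or.inl ⟨⟨mem_univ _, h3⟩, by rwa [add_sub_cancel]⟩
    have h3 := (card_le_card h2).trans (card_image_le.trans (card_union_le _ _))
    exact_mod_cast h3
  -- the numbers
  have hV0 : (0 : ℝ) ≤ Fintype.card V := Nat.cast_nonneg _
  have hkR : (3 : ℝ) ≤ k := by exact_mod_cast hk
  set R := r ^ (((k : ℝ) - 2) / k) with hR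
  have hR1 : 1 ≤ R := Real.one_le_rpow hr1 (by apply div_nonneg <;> linarith)
  set D := K ^ (-(1 / (k : ℝ))) with hD
  have hD0 : 0 < D := Real.rpow_pos_of_pos (by linarith) _
  have hTD : T = 2 * k * R * (K * D) := by
    rw [hT, hD, sub_eq_add_neg, Real.rpow_add (by linarith), Real.rpow_one]
  have hNb : (N.card : ℝ) ≤ 4 * k * R * Fintype.card V * D := by
    have h2 : (K / 2) * N.card ≤ (K / 2) * (4 * k * R * Fintype.card V * D) := by
      calc (K / 2) * N.card ≤ (K - 1) * N.card := by
            apply mul_le_mul_of_nonneg_right _ (Nat.cast_nonneg _)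
            linarith
        _ ≤ _ := hdc
        _ = _ := by rw [hTD]; ring
    exact le_of_mul_le_mul_left h2 (by linarith)
  have hFb : (Fx.card : ℝ) ≤ R * Fintype.card V * D := by
    have h2 : (1 : ℝ) ≤ K * D := by
      rw [hD]
      have h3 : K * K ^ (-(1 / (k : ℝ))) = K ^ (1 - 1 / (k : ℝ)) := by
        rw [sub_eq_add_neg, Real.rpow_add (by linarith), Real.rpow_one]
      rw [h3]
      apply Real.one_le_rpow (by linarith)
      rw [sub_nonneg, div_le_one (by linarith)]
      linarith
    have h3 : (Fx.card : ℝ) * K ≤ (R * Fintype.card V * D) * K := by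
      calc (Fx.card : ℝ) * K ≤ Fintype.card V := hfix
        _ = 1 * Fintype.card V * 1 := by ring
        _ ≤ R * Fintype.card V * (K * D) := by
            apply mul_le_mul _ h2 zero_le_one (by positivity)
            exact mul_le_mul_of_nonneg_right hR1 hV0
        _ = _ := by ring
    exact le_of_mul_le_mul_right h3 (by linarith)
  calc (B.card : ℝ) ≤ N.card + Fx.card := hBle
    _ ≤ 4 * k * R * Fintype.card V * D + R * Fintype.card V * D := add_le_add hNb hFb
    _ = _ := by ring

end

end Pool.Agent.T6.H29.OR
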