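import Pool.Agent.T6.H29.OR.W2

/-!
# Weil's bound for products of arbitrary multiplicative characters of linear polynomials
-/

set_option autoImplicit false

namespace Pool.Agent.T6.H29.OR.W

open Finset

variable {F : Type} [Field F] [Fintype F] [DecidableEq F]

/-- **Weil's bound** for `∑ ∏ χ_a (x - a)` with arbitrary characters `χ_a`. -/
theorem weil_chars (J : Finset F) (χ : F → MulChar F ℂ) (h : ∃ a ∈ J, χ a ≠ 1) :
    ‖∑ x : F, ∏ a ∈ J, χ a (x - a)‖ ≤ J.card * Real.sqrt (Fintype.card F) := by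
  classical
  obtain ⟨e⟩ := MulChar.mulEquiv_units (M := F) (R := ℂ)
  have hcyc : IsCyclic (MulChar F ℂ) :=
    isCyclic_of_surjective e.symm e.symm.surjective
  obtain ⟨g, hg⟩ := IsCyclic.exists_generator (α := MulChar F ℂ)
  have hfin : Finite (MulChar F ℂ) := Finite.of_equiv _ e.toEquiv.symm
  have hcardq : 2 ≤ Fintype.card F := Fintype.one_lt_card
  obtain ⟨N, hN⟩ : ∃ N, N = orderOf g := ⟨_, rfl⟩
  have hNq : N = Fintype.card F - 1 := by
    rw [hN, orderOf_eq_card_of_forall_mem_zpowers hg, Nat.card_congr e.toEquiv,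
      Nat.card_eq_fintype_card, Fintype.card_units]
  have hN0 : 0 < N := by omega
  have hpow : ∀ ψ : MulChar F ℂ, ∃ c : ℕ, g ^ c = ψ := fun ψ =>
    mem_powers_iff_mem_zpowers.2 (hg ψ)
  choose c0 hc0 using fun a => hpow (χ a)
  obtain ⟨d, hd⟩ : ∃ d, d = Nat.gcd (J.gcd c0) N := ⟨_, rfl⟩
  have hdN : d ∣ N := hd ▸ Nat.gcd_dvd_right _ _
  have hd0 : 0 < d := Nat.pos_of_dvd_of_pos hdN hN0
  have hda : ∀ a ∈ J, d ∣ c0 a := fun a ha =>
    (hd ▸ Nat.gcd_dvd_left _ _ : d ∣ J.gcd c0).trans (Finset.gcd_dvd ha)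
  obtain ⟨t, ht⟩ := hdN
  set c : F → ℕ := fun a => c0 a / d + N with hc
  have hcpos : ∀ a, 0 < c a := fun a => Nat.add_pos_right _ hN0
  have hgN : g ^ N = 1 := by rw [hN]; exact pow_orderOf_eq_one g
  have hχ : ∀ a ∈ J, (g ^ d) ^ c a = χ a := by
    intro a ha
    rw [← pow_mul, hc]
    simp only
    rw [mul_add, Nat.mul_div_cancel' (hda a ha), pow_add, mul_comm d N, pow_mul, hgN, one_pow,
      mul_one, hc0]
  have hχ1 : g ^ d ≠ 1 := by
    intro h1
    obtain ⟨a, ha, hne⟩ := h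
    apply hne
    rw [← hχ a ha, h1, one_pow]
  have hχt : (g ^ d) ^ t = 1 := by rw [← pow_mul, ← ht, hgN]
  have ht0 : 0 < t := by
    rcases Nat.eq_zero_or_pos t with h0 | h0
    · rw [h0, mul_zero] at ht; omega
    · exact h0
  have ht2 : 2 ≤ t := by
    by_contra hlt
    have : t = 1 := by omega
    rw [this, pow_one] at hχt
    exact hχ1 hχt
  have htN : t ∣ N := ⟨d, by rw [ht]; ring⟩
  have hsum : ∑ x : F, ∏ a ∈ J, χ a (x - a) =
      ∑ x : F, (g ^ d) (∏ a ∈ J, (x - a) ^ c a) := by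
    refine sum_congr rfl fun x _ => ?_
    rw [map_prod]
    refine prod_congr rfl fun a ha => ?_
    rw [map_pow, ← hχ a ha, MulChar.pow_apply' _ (hcpos a).ne']
  rw [hsum]
  refine weil_lin t ht2 (by rw [← hNq]; exact htN) (g ^ d) hχ1 hχt J c
    (fun a _ => hcpos a) ?_
  intro l hl hlt
  by_contra hno
  push Not at hno
  have h1 : ∀ a ∈ J, l * d ∣ c0 a := by
    intro a ha
    have h2 : l ∣ c0 a / d := by
      have h3 := hno a ha
      simp only [hc] at h3
      exact (Nat.dvd_add_left (hlt.trans htN)).1 h3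
    have h4 := Nat.mul_dvd_mul_right h2 d
    rwa [Nat.div_mul_cancel (hda a ha)] at h4
  have h2 : l * d ∣ N := by
    rw [ht, mul_comm l d]
    exact Nat.mul_dvd_mul_left d hlt
  have h3 : l * d ∣ d := by
    conv_rhs => rw [hd]
    exact Nat.dvd_gcd (Finset.dvd_gcd h1) h2
  have h4 := Nat.le_of_dvd hd0 h3
  have h5 := hl.two_le
  nlinarith

end Pool.Agent.T6.H29.OR.W
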